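import Pool.Agent.H26.RK.Count

/-!
# The rook's graph of size `K C ^ 7` has no book embedding on `C n` pages
-/

set_option autoImplicit false

namespace Pool.Agent.H26.RK

open Finset Pool.Agent.Results.MP_fb44d2_co.Superlinear

section

variable {V ι κ : Type} [Fintype V] [DecidableEq V] [DecidableEq ι] [DecidableEq κ]
variable {pos : V → ℕ} {f : V → ι} {g : V → κ}

theorem pc {p : ℕ} {col : V → V → Fin p} [Fintype ι] (hP : Pages pos f p col) (W : Finset V)
    {L B m n h Q τ θ : ℕ}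
    (hm : 0 < m) (h0 : 0 < h) (hB : ∀ v, pos v < B * L) (hQ : ∀ v, pos v < Q * h)
    (hn : ∀ i, (Finset.univ.filter (fun v => f v = i)).card ≤ n)
    (hι : Fintype.card ι ≤ n)
    (hblk : ∀ i b, (W.filter (fun w => f w = i ∧ pos w / L = b)).card ≤ m)
    (hcell : ∀ i q, (W.filter (fun w => f w = i ∧ pos w / h = q)).card ≤ τ)
    (hW : 10 * m * n ≤ W.card) :
    W.card * m ^ 3 ≤ 2 * n * (24 * τ * p ^ 3 * B +
      12 * n * (n * (Dense W pos f h θ).card + p * Q * θ)) := by
  have hR := packR hP W (t := 4 * τ) (θ := θ) le_rfl hcell hQ hn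
  have hF := packL hP W (t := 4 * τ) (θ := θ) h0 le_rfl hcell hQ hn
  have h1 := count hP W hm hB hn hι hblk hW hR hF
  refine h1.trans (le_of_eq ?_)
  ring

theorem pc0 {p : ℕ} {col : V → V → Fin p} [Fintype ι] (hP : Pages pos f p col) (W : Finset V)
    {L B m n h Q τ : ℕ}
    (hm : 0 < m) (h0 : 0 < h) (hτ : 0 < τ) (hB : ∀ v, pos v < B * L) (hQ : ∀ v, pos v < Q * h)
    (hn : ∀ i, (Finset.univ.filter (fun v => f v = i)).card ≤ n)
    (hι : Fintype.card ι ≤ n)
    (hblk : ∀ i b, (W.filter (fun w => f w = i ∧ pos w / L = b)).card ≤ m)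
    (hcell : ∀ i q, (W.filter (fun w => f w = i ∧ pos w / h = q)).card ≤ τ)
    (hW : 10 * m * n ≤ W.card) :
    W.card * m ^ 3 ≤ 2 * n * (24 * τ * p ^ 3 * B + 24 * n * (p * Q * τ)) := by
  have h1 := pc hP W (θ := τ + 1) hm h0 hB hQ hn hι hblk hcell hW
  have h2 : (Dense W pos f h (τ + 1)).card = 0 := by
    rw [Finset.card_eq_zero, Finset.eq_empty_iff_forall_notMem]
    intro v hv
    have h3 := (mem_dense hv).2
    have h4 := hcell (f v) (pos v / h)
    omega
  rw [h2] at h1
  refine h1.trans (Nat.mul_le_mul_left _ (Nat.add_le_add_left ?_ _))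
  have h3 : τ + 1 ≤ 2 * τ := by omega
  calc 12 * n * (n * 0 + p * Q * (τ + 1)) = 12 * n * (p * Q) * (τ + 1) := by ring
    _ ≤ 12 * n * (p * Q) * (2 * τ) := Nat.mul_le_mul_left _ h3
    _ = _ := by ring

theorem s1 [Fintype ι] {n C h θ : ℕ} {col : V → V → Fin (C * n)}
    (hP : Pages pos f (C * n) col) (W : Finset V)
    (hC : 0 < C) (hθ : 0 < θ) (hhθ : h = 7776000 * C * θ) (hnh : n = 46656000000 * C ^ 3 * h)
    (hn : ∀ i, (Finset.univ.filter (fun v => f v = i)).card ≤ n)
    (hι : Fintype.card ι ≤ n) (hpos : ∀ v, pos v < n * n)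
    {L m : ℕ} (hL : L * 3000 = n * n) (hm : m * 30 = n)
    (hblk : ∀ i b, (W.filter (fun w => f w = i ∧ pos w / L = b)).card ≤ m)
    (hW : n * n ≤ 3 * W.card) : n * n ≤ 3888000 * (Dense W pos f h θ).card := by
  have h0 : 0 < h := by rw [hhθ]; positivity
  have hn0 : 0 < n := by rw [hnh]; positivity
  have hm0 : 0 < m := by omega
  set D := (Dense W pos f h θ).card with hD
  have key := pc hP W (L := L) (B := 3000) (m := m) (h := h) (Q := 46656000000 * C ^ 3 * n)
    (τ := h) (θ := θ) hm0 h0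
    (by intro v; rw [mul_comm, hL]; exact hpos v)
    (by
      intro v
      refine (hpos v).trans_le (le_of_eq ?_)
      have : n * n = (46656000000 * C ^ 3 * h) * n := by rw [← hnh]
      rw [this]; ring)
    hn hι hblk
    (by
      intro i q
      refine le_trans (Finset.card_le_card ?_) (cell_card hP.inj h0 q)
      intro w hw
      exact Finset.mem_filter.mpr ⟨Finset.mem_univ _, (Finset.mem_filter.mp hw).2.2⟩)
    (by
      have : n * n = 3 * (10 * m * n) := by
        calc n * n = (m * 30) * n := by rw [hm]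
          _ = _ := by ring
      omega)
  rw [← hD] at key
  have A : n ^ 5 ≤ 81000 * (W.card * m ^ 3) := by
    calc n ^ 5 = n * n * n ^ 3 := by ring
      _ ≤ 3 * W.card * n ^ 3 := Nat.mul_le_mul_right _ hW
      _ = 3 * W.card * (m * 30) ^ 3 := by rw [hm]
      _ = _ := by ring
  have e1 : 4 * (81000 * (2 * n * (24 * h * (C * n) ^ 3 * 3000))) = n ^ 5 := by
    calc _ = n ^ 4 * (46656000000 * C ^ 3 * h) := by ring
      _ = n ^ 4 * n := by rw [← hnh]
      _ = _ := by ring
  have e2 : 4 * (81000 * (2 * n * (12 * n * (C * n * (46656000000 * C ^ 3 * n) * θ)))) =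
      n ^ 5 := by
    calc _ = n ^ 4 * (46656000000 * C ^ 3 * (7776000 * C * θ)) := by ring
      _ = n ^ 4 * n := by rw [← hhθ, ← hnh]
      _ = _ := by ring
  have e3 : 4 * (81000 * (2 * n * (24 * h * (C * n) ^ 3 * 3000 +
      12 * n * (n * D + C * n * (46656000000 * C ^ 3 * n) * θ)))) =
      4 * (81000 * (2 * n * (24 * h * (C * n) ^ 3 * 3000))) +
      4 * (81000 * (2 * n * (12 * n * (C * n * (46656000000 * C ^ 3 * n) * θ)))) +
      7776000 * (n ^ 3 * D) := by ring
  have e4 : 4 * n ^ 5 ≤ n ^ 5 + n ^ 5 + 7776000 * (n ^ 3 * D) := by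
    calc 4 * n ^ 5 ≤ 4 * (81000 * (W.card * m ^ 3)) := Nat.mul_le_mul_left _ A
      _ ≤ 4 * (81000 * (2 * n * (24 * h * (C * n) ^ 3 * 3000 +
      12 * n * (n * D + C * n * (46656000000 * C ^ 3 * n) * θ)))) :=
        Nat.mul_le_mul_left _ (Nat.mul_le_mul_left _ key)
      _ = _ := by rw [e3, e1, e2]
  have e5 : n ^ 3 * (n * n) ≤ n ^ 3 * (3888000 * D) := by
    have h1 : n ^ 3 * (n * n) = n ^ 5 := by ring
    have h2 : n ^ 3 * (3888000 * D) = 3888000 * (n ^ 3 * D) := by ring
    rw [h1, h2]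
    omega
  exact Nat.le_of_mul_le_mul_left e5 (by positivity)

theorem case1 [Fintype ι] {n C E E1 u L B : ℕ} {col : V → V → Fin (C * n)}
    (hPf : Pages pos f (C * n) col) (W D : Finset V)
    (hfg : ∀ x y, f x = f y → g x = g y → x = y)
    (hC : 0 < C) (hE : E = 20 * E1) (hE1 : 0 < E1) (hu : 0 < u)
    (hB : B = 10 * E ^ 7 * C ^ 3) (hn : n = B * u) (hL : L = n * u)
    (hnf : ∀ i, (Finset.univ.filter (fun v => f v = i)).card ≤ n)
    (hι : Fintype.card ι ≤ n) (hpos : ∀ v, pos v < n * n)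
    {m : ℕ} (hm : m * E = n)
    (hW : ∀ v ∈ W, m ≤ (D.filter (fun w => g w = g v ∧ pos w / L = pos v / L)).card)
    (hcard : n * n ≤ 2 * E1 * W.card) : False := by
  have hE0 : 0 < E := by omega
  have hB0 : 0 < B := by rw [hB]; positivity
  have hn0 : 0 < n := by rw [hn]; positivity
  have hL0 : 0 < L := by rw [hL]; positivity
  have hm0 : 0 < m := by
    rcases Nat.eq_zero_or_pos m with h | h
    · rw [h, zero_mul] at hm; omega
    · exact h
  have cb : ∀ k, 0 < k → ∀ i b,
      (W.filter (fun w => f w = i ∧ pos w / (L * k) = b)).card ≤ k * (E * u) := by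
    intro k hk i b
    have h1 := col_bound (f := g) (g := f) hPf.inj (fun x y a b => hfg x y b a) W D (k := k)
      (h := L) (θ := m) hL0 hk hW i b
    have h2 : k * L = (k * (E * u)) * m := by
      rw [hL]
      calc k * (n * u) = k * ((m * E) * u) := by rw [hm]
        _ = _ := by ring
    exact Nat.le_of_mul_le_mul_right (h1.trans (le_of_eq h2)) hm0
  have hmr : 10 * E ^ 5 * C ^ 3 * (E * u) = m := by
    have : 10 * E ^ 5 * C ^ 3 * (E * u) * E = m * E := by
      rw [hm, hn, hB]; ring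
    exact Nat.eq_of_mul_eq_mul_right hE0 this
  have h10 : 10 * m * n ≤ W.card := by
    have : 2 * E1 * (10 * m * n) ≤ 2 * E1 * W.card := by
      refine le_trans (le_of_eq ?_) hcard
      calc 2 * E1 * (10 * m * n) = (m * (20 * E1)) * n := by ring
        _ = n * n := by rw [← hE, hm]
    exact Nat.le_of_mul_le_mul_left this (by omega)
  have key := pc0 hPf W (L := L * (10 * E ^ 5 * C ^ 3)) (B := E ^ 2) (m := m) (h := L) (Q := B)
    (τ := E * u) hm0 hL0 (by positivity)
    (by
      intro v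
      refine (hpos v).trans_le (le_of_eq ?_)
      calc n * n = n * (B * u) := by rw [← hn]
        _ = _ := by rw [hL, hB]; ring)
    (by
      intro v
      refine (hpos v).trans_le (le_of_eq ?_)
      calc n * n = n * (B * u) := by rw [← hn]
        _ = _ := by rw [hL]; ring)
    hnf hι
    (fun i b => by
      have := cb (10 * E ^ 5 * C ^ 3) (by positivity) i b
      rwa [hmr] at this)
    (fun i q => by
      have := cb 1 one_pos i q
      rwa [mul_one, one_mul] at this)
    h10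
  have k1 : E ^ 3 * (W.card * m ^ 3) = W.card * n ^ 3 := by rw [← hm]; ring
  have k2 : (10 * m) * n ^ 4 ≤ (48 * (E ^ 6 * C ^ 3 * u) + 48 * (E ^ 4 * C)) * n ^ 4 := by
    calc (10 * m) * n ^ 4 = (10 * m * n) * n ^ 3 := by ring
      _ ≤ W.card * n ^ 3 := Nat.mul_le_mul_right _ h10
      _ = E ^ 3 * (W.card * m ^ 3) := k1.symm
      _ ≤ E ^ 3 * (2 * n * (24 * (E * u) * (C * n) ^ 3 * E ^ 2 +
          24 * n * (C * n * B * (E * u)))) := Nat.mul_le_mul_left _ key
      _ = 48 * (E ^ 6 * C ^ 3 * u) * n ^ 4 + 48 * (E ^ 4 * C) * n ^ 3 * (B * u) := by ring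
      _ = 48 * (E ^ 6 * C ^ 3 * u) * n ^ 4 + 48 * (E ^ 4 * C) * n ^ 3 * n := by rw [← hn]
      _ = _ := by ring
  have k3 := Nat.le_of_mul_le_mul_right k2 (by positivity)
  have k4 : E ^ 4 * C ≤ E ^ 6 * C ^ 3 * u := by
    calc E ^ 4 * C = E ^ 4 * C * 1 := (mul_one _).symm
      _ ≤ E ^ 4 * C * (E ^ 2 * C ^ 2 * u) :=
        Nat.mul_le_mul_left _ (Nat.one_le_iff_ne_zero.mpr (by positivity))
      _ = _ := by ring
  have k5 : m = 10 * (E ^ 6 * C ^ 3 * u) := by rw [← hmr]; ring
  have k6 : 0 < E ^ 6 * C ^ 3 * u := by positivity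
  omega

theorem case2 [Fintype κ] {n C E E1 a b h θ u L B : ℕ} {col : V → V → Fin (C * n)}
    (hPg : Pages pos g (C * n) col) (W W1 : Finset V)
    (hfg : ∀ x y, f x = f y → g x = g y → x = y)
    (hC : 0 < C) (hE : E = 20 * E1) (hE1 : 0 < E1) (ha : 0 < a) (hb : 0 < b) (hθ : 0 < θ)
    (hh : h = b * C * θ) (hnh : n = a * C ^ 3 * h)
    (hB : B = 10 * E ^ 7 * C ^ 3) (hu : u = 10 * a * b * E ^ 4 * C ^ 4) (hn : n = B * u)
    (hL : L = n * u)
    (hng : ∀ i, (Finset.univ.filter (fun v => g v = i)).card ≤ n)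
    (hκ : Fintype.card κ ≤ n) (hpos : ∀ v, pos v < n * n)
    {m : ℕ} (hm : m * E = n)
    (hD : ∀ v ∈ W, θ ≤ (W1.filter (fun w => f w = f v ∧ pos w / h = pos v / h)).card)
    (hblk : ∀ i q, (W.filter (fun w => g w = i ∧ pos w / L = q)).card ≤ m)
    (hcard : n * n ≤ 2 * E1 * W.card) : False := by
  have hE0 : 0 < E := by omega
  have hB0 : 0 < B := by rw [hB]; positivity
  have hu0 : 0 < u := by rw [hu]; positivity
  have hn0 : 0 < n := by rw [hn]; positivity
  have h0 : 0 < h := by rw [hh]; positivity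
  have hm0 : 0 < m := by
    rcases Nat.eq_zero_or_pos m with h | h
    · rw [h, zero_mul] at hm; omega
    · exact h
  have hcell : ∀ i q, (W.filter (fun w => g w = i ∧ pos w / h = q)).card ≤ b * C := by
    intro i q
    have h1 := col_bound hPg.inj hfg W W1 (k := 1) (h := h) (θ := θ) h0 one_pos hD i q
    rw [mul_one, one_mul] at h1
    exact Nat.le_of_mul_le_mul_right (h1.trans (le_of_eq hh)) hθ
  have h10 : 10 * m * n ≤ W.card := by
    have : 2 * E1 * (10 * m * n) ≤ 2 * E1 * W.card := by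
      refine le_trans (le_of_eq ?_) hcard
      calc 2 * E1 * (10 * m * n) = (m * (20 * E1)) * n := by ring
        _ = n * n := by rw [← hE, hm]
    exact Nat.le_of_mul_le_mul_left this (by omega)
  have key := pc0 hPg W (L := L) (B := B) (m := m) (h := h) (Q := a * C ^ 3 * n)
    (τ := b * C) hm0 h0 (by positivity)
    (by
      intro v
      refine (hpos v).trans_le (le_of_eq ?_)
      calc n * n = n * (B * u) := by rw [← hn]
        _ = _ := by rw [hL]; ring)
    (by
      intro v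
      refine (hpos v).trans_le (le_of_eq ?_)
      calc n * n = n * (a * C ^ 3 * h) := by rw [← hnh]
        _ = _ := by ring)
    hng hκ hblk hcell h10
  have hmr : m = 100 * (a * b * E ^ 10 * C ^ 7) := by
    have : m * E = 100 * (a * b * E ^ 10 * C ^ 7) * E := by
      rw [hm, hn, hB, hu]; ring
    exact Nat.eq_of_mul_eq_mul_right hE0 this
  have k1 : E ^ 3 * (W.card * m ^ 3) = W.card * n ^ 3 := by rw [← hm]; ring
  have k2 : (10 * m) * n ^ 4 ≤
      (480 * (b * E ^ 10 * C ^ 7) + 48 * (a * b * E ^ 3 * C ^ 5)) * n ^ 4 := by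
    calc (10 * m) * n ^ 4 = (10 * m * n) * n ^ 3 := by ring
      _ ≤ W.card * n ^ 3 := Nat.mul_le_mul_right _ h10
      _ = E ^ 3 * (W.card * m ^ 3) := k1.symm
      _ ≤ E ^ 3 * (2 * n * (24 * (b * C) * (C * n) ^ 3 * B +
          24 * n * (C * n * (a * C ^ 3 * n) * (b * C)))) := Nat.mul_le_mul_left _ key
      _ = _ := by rw [hB]; ring
  have k3 := Nat.le_of_mul_le_mul_right k2 (by positivity)
  have k4 : b * E ^ 10 * C ^ 7 ≤ a * b * E ^ 10 * C ^ 7 := by
    calc b * E ^ 10 * C ^ 7 = b * E ^ 10 * C ^ 7 * 1 := (mul_one _).symm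
      _ ≤ b * E ^ 10 * C ^ 7 * a := Nat.mul_le_mul_left _ ha
      _ = _ := by ring
  have k5 : a * b * E ^ 3 * C ^ 5 ≤ a * b * E ^ 10 * C ^ 7 := by
    calc a * b * E ^ 3 * C ^ 5 = a * b * E ^ 3 * C ^ 5 * 1 := (mul_one _).symm
      _ ≤ a * b * E ^ 3 * C ^ 5 * (E ^ 7 * C ^ 2) :=
        Nat.mul_le_mul_left _ (Nat.one_le_iff_ne_zero.mpr (by positivity))
      _ = _ := by ring
  have k6 : 0 < a * b * E ^ 10 * C ^ 7 := by positivity
  omega

theorem core [Fintype ι] [Fintype κ] {n C a b E : ℕ} {col : V → V → Fin (C * n)}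
    (hPf : Pages pos f (C * n) col) (hPg : Pages pos g (C * n) col) (W : Finset V)
    (hfg : ∀ x y, f x = f y → g x = g y → x = y) (hC : 0 < C)
    (ha : a = 46656000000) (hb : b = 7776000) (hE : E = 77760000)
    (hnn : n = 100 * a * b * E ^ 11 * C ^ 7)
    (hnf : ∀ i, (Finset.univ.filter (fun v => f v = i)).card ≤ n)
    (hng : ∀ i, (Finset.univ.filter (fun v => g v = i)).card ≤ n)
    (hι : Fintype.card ι ≤ n) (hκ : Fintype.card κ ≤ n) (hpos : ∀ v, pos v < n * n)
    {L m : ℕ} (hL : L * 3000 = n * n) (hm : m * 30 = n)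
    (hblk : ∀ i b, (W.filter (fun w => f w = i ∧ pos w / L = b)).card ≤ m)
    (hW : n * n ≤ 3 * W.card) : False := by
  classical
  have ha0 : 0 < a := by omega
  have hb0 : 0 < b := by omega
  have hE0 : 0 < E := by omega
  obtain ⟨θ, hθ⟩ : ∃ t, t = 100 * E ^ 11 * C ^ 3 := ⟨_, rfl⟩
  obtain ⟨h, hh⟩ : ∃ t, t = 100 * b * E ^ 11 * C ^ 4 := ⟨_, rfl⟩
  obtain ⟨u, hu⟩ : ∃ t, t = 10 * a * b * E ^ 4 * C ^ 4 := ⟨_, rfl⟩
  obtain ⟨B, hB⟩ : ∃ t, t = 10 * E ^ 7 * C ^ 3 := ⟨_, rfl⟩
  obtain ⟨M, hM⟩ : ∃ t, t = 100 * a * b * E ^ 10 * C ^ 7 := ⟨_, rfl⟩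
  obtain ⟨K, hK⟩ : ∃ t, t = n * u := ⟨_, rfl⟩
  have hθ0 : 0 < θ := by rw [hθ]; positivity
  have hu0 : 0 < u := by rw [hu]; positivity
  have hh' : h = b * C * θ := by rw [hh, hθ]; ring
  have hnh : n = a * C ^ 3 * h := by rw [hnn, hh]; ring
  have hnB : n = B * u := by rw [hnn, hB, hu]; ring
  have hME : M * E = n := by rw [hnn, hM]; ring
  have k1 := s1 hPf W (h := h) (θ := θ) hC hθ0 (by rw [hh', hb]) (by rw [← ha]; exact hnh)
    hnf hι hpos hL hm hblk hW
  set D1 := Dense W pos f h θ with hD1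
  set Wc := D1.filter (fun v =>
    M ≤ (D1.filter (fun w => g w = g v ∧ pos w / K = pos v / K)).card) with hWc
  set Wn := D1.filter (fun v =>
    ¬ M ≤ (D1.filter (fun w => g w = g v ∧ pos w / K = pos v / K)).card) with hWn
  have hsum : Wc.card + Wn.card = D1.card := Finset.card_filter_add_card_filter_not _
  have hE' : E = 20 * 3888000 := by rw [hE]
  have hdich : n * n ≤ 2 * 3888000 * Wc.card ∨ n * n ≤ 2 * 3888000 * Wn.card := by omega
  rcases hdich with hd | hd
  · exact case1 hPf Wc D1 hfg hC hE' (by norm_num) hu0 hB hnB hK hnf hι hpos hME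
      (fun v hv => (Finset.mem_filter.mp hv).2) hd
  · refine case2 hPg Wn W hfg hC hE' (by norm_num) ha0 hb0 hθ0 hh' hnh hB hu hnB hK hng hκ hpos
      hME (fun v hv => (mem_dense (Finset.mem_filter.mp hv).1).2) ?_ hd
    intro i q
    rcases (Wn.filter (fun w => g w = i ∧ pos w / K = q)).eq_empty_or_nonempty with he | ⟨v, hv⟩
    · rw [he, Finset.card_empty]; exact Nat.zero_le _
    · obtain ⟨v1, v2, v3⟩ := Finset.mem_filter.mp hv
      have h4 := (Finset.mem_filter.mp v1).2
      push Not at h4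
      refine le_trans (Finset.card_le_card ?_) h4.le
      intro w hw
      obtain ⟨w1, w2, w3⟩ := Finset.mem_filter.mp hw
      exact Finset.mem_filter.mpr ⟨(Finset.mem_filter.mp w1).1, w2.trans v2.symm,
        w3.trans v3.symm⟩

theorem no_pages [Fintype ι] [Fintype κ] {n C a b E : ℕ} {col : V → V → Fin (C * n)}
    (hPf : Pages pos f (C * n) col) (hPg : Pages pos g (C * n) col)
    (hfg : ∀ x y, f x = f y → g x = g y → x = y) (hC : 0 < C)
    (ha : a = 46656000000) (hb : b = 7776000) (hE : E = 77760000)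
    (hnn : n = 100 * a * b * E ^ 11 * C ^ 7)
    (hnf : ∀ i, (Finset.univ.filter (fun v => f v = i)).card ≤ n)
    (hng : ∀ i, (Finset.univ.filter (fun v => g v = i)).card ≤ n)
    (hι : Fintype.card ι ≤ n) (hκ : Fintype.card κ ≤ n) (hpos : ∀ v, pos v < n * n)
    (hV : Fintype.card V = n * n) : False := by
  classical
  have ha0 : 0 < a := by omega
  have hb0 : 0 < b := by omega
  have hE0 : 0 < E := by omega
  have hn0 : 0 < n := by rw [hnn]; positivity
  obtain ⟨m, hm⟩ : ∃ m, m * 30 = n := by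
    refine ⟨100 * 1555200000 * b * E ^ 11 * C ^ 7, ?_⟩
    rw [hnn, ha]; ring
  obtain ⟨L, hL⟩ : ∃ L, L * 3000 = n * n := by
    refine ⟨100 * 15552000 * b * E ^ 11 * C ^ 7 * n, ?_⟩
    have : n * n = (100 * a * b * E ^ 11 * C ^ 7) * n := by rw [← hnn]
    rw [this, ha]; ring
  have hm0 : 0 < m := by omega
  have hL0 : 0 < L := by
    rcases Nat.eq_zero_or_pos L with h | h
    · rw [h, zero_mul] at hL
      have : 0 < n * n := by positivity
      omega
    · exact h
  let cf : V → ℕ := fun v =>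
    ((Finset.univ : Finset V).filter (fun w => f w = f v ∧ pos w / L = pos v / L)).card
  let cg : V → ℕ := fun v =>
    ((Finset.univ : Finset V).filter (fun w => g w = g v ∧ pos w / L = pos v / L)).card
  set Wf := (Finset.univ : Finset V).filter (fun v => cf v < m) with hWf
  set Wg := (Finset.univ : Finset V).filter (fun v => cg v < m) with hWg
  set D0 := (Finset.univ : Finset V).filter (fun v => m ≤ cf v ∧ m ≤ cg v) with hD0
  have hcov : (Finset.univ : Finset V) ⊆ D0 ∪ (Wf ∪ Wg) := by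
    intro v _
    rw [Finset.mem_union, Finset.mem_union, hD0, hWf, hWg, Finset.mem_filter, Finset.mem_filter,
      Finset.mem_filter]
    by_cases h1 : cf v < m
    · exact Or.inr (Or.inl ⟨Finset.mem_univ _, h1⟩)
    · by_cases h2 : cg v < m
      · exact Or.inr (Or.inr ⟨Finset.mem_univ _, h2⟩)
      · exact Or.inl ⟨Finset.mem_univ _, not_lt.mp h1, not_lt.mp h2⟩
  have hcard := Finset.card_le_card hcov
  rw [Finset.card_univ, hV] at hcard
  have hcard2 := (Finset.card_union_le D0 (Wf ∪ Wg))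
  have hcard3 := (Finset.card_union_le Wf Wg)
  have hD0card : D0.card * 10 ≤ 3 * (n * n) := by
    have k3 := both_dense hPf.inj hfg D0 Finset.univ Finset.univ (k := 1) (h2 := L)
      (θ1 := m) (θ2 := m) (Q2 := 3000) hL0 one_pos
      (by
        intro v
        rw [mul_comm, hL]
        exact hpos v)
      (by
        intro v hv
        rw [mul_one]
        exact (Finset.mem_filter.mp hv).2.1)
      (fun v hv => (Finset.mem_filter.mp hv).2.2)
    have e1 : 900 * (D0.card * (m * m)) = D0.card * (n * n) := by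
      rw [← hm]; ring
    have e2 : 3000 * (3000 * ((L * 1) * L)) = (n * n) * (n * n) := by
      rw [← hL]; ring
    have e3 : (D0.card * 10) * (n * n) ≤ (3 * (n * n)) * (n * n) := by
      have := Nat.mul_le_mul_left 9000 k3
      calc (D0.card * 10) * (n * n) = 10 * (900 * (D0.card * (m * m))) := by rw [e1]; ring
        _ = 9000 * (D0.card * (m * m)) := by ring
        _ ≤ 9000 * (3000 * ((L * 1) * L)) := this
        _ = 3 * (3000 * (3000 * ((L * 1) * L))) := by ring
        _ = _ := by rw [e2]; ring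
    exact Nat.le_of_mul_le_mul_right e3 (by positivity)
  have hdich : n * n ≤ 3 * Wf.card ∨ n * n ≤ 3 * Wg.card := by omega
  rcases hdich with h | h
  · refine core hPf hPg Wf hfg hC ha hb hE hnn hnf hng hι hκ hpos hL hm ?_ h
    intro i b
    rcases (Wf.filter (fun w => f w = i ∧ pos w / L = b)).eq_empty_or_nonempty with he | ⟨v, hv⟩
    · rw [he, Finset.card_empty]; exact Nat.zero_le _
    · obtain ⟨v1, v2, v3⟩ := Finset.mem_filter.mp hv
      have h4 : cf v < m := (Finset.mem_filter.mp v1).2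
      refine le_trans (Finset.card_le_card ?_) h4.le
      intro w hw
      obtain ⟨_, w2, w3⟩ := Finset.mem_filter.mp hw
      exact Finset.mem_filter.mpr ⟨Finset.mem_univ _, w2.trans v2.symm, w3.trans v3.symm⟩
  · refine core hPg hPf Wg (fun a b h1 h2 => hfg a b h2 h1) hC ha hb hE hnn hng hnf hκ hι hpos
      hL hm ?_ h
    intro i b
    rcases (Wg.filter (fun w => g w = i ∧ pos w / L = b)).eq_empty_or_nonempty with he | ⟨v, hv⟩
    · rw [he, Finset.card_empty]; exact Nat.zero_le _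
    · obtain ⟨v1, v2, v3⟩ := Finset.mem_filter.mp hv
      have h4 : cg v < m := (Finset.mem_filter.mp v1).2
      refine le_trans (Finset.card_le_card ?_) h4.le
      intro w hw
      obtain ⟨_, w2, w3⟩ := Finset.mem_filter.mp hw
      exact Finset.mem_filter.mpr ⟨Finset.mem_univ _, w2.trans v2.symm, w3.trans v3.symm⟩

end

end Pool.Agent.H26.RK
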