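import Pool.Agent.H26.RK.Pack

/-!
# Counting triangles of the rook's graph over all blocks
-/

set_option autoImplicit false

namespace Pool.Agent.H26.RK

open Finset Pool.Agent.Results.MP_fb44d2_co.Superlinear

section

variable {V ι : Type} [Fintype V] [DecidableEq V] [DecidableEq ι]
variable {pos : V → ℕ} {f : V → ι} {p : ℕ} {col : V → V → Fin p}

/-- a line with `5 m` vertices, at most `m` in each block, is cut into three big parts -/
theorem cut (W : Finset V) (blk : V → ℕ) {B m : ℕ} (hm : 0 < m) (hB : ∀ v, blk v < B) (i : ι)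
    (hblk : ∀ b, (W.filter (fun w => f w = i ∧ blk w = b)).card ≤ m)
    (hi5 : 5 * m ≤ (W.filter (fun w => f w = i)).card) :
    ∃ x1 x2 : ℕ, x1 ≤ x2 ∧
      m ≤ (W.filter (fun w => f w = i ∧ blk w < x1)).card ∧
        m ≤ (W.filter (fun w => f w = i ∧ x1 ≤ blk w ∧ blk w < x2)).card ∧
        m ≤ (W.filter (fun w => f w = i ∧ x2 ≤ blk w)).card := by
  classical
  let c : ℕ → ℕ := fun x => (W.filter (fun w => f w = i ∧ blk w < x)).card
  have hstep : ∀ x, c (x + 1) ≤ c x + m := by
    intro x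
    have h1 : W.filter (fun w => f w = i ∧ blk w < x + 1) ⊆
        W.filter (fun w => f w = i ∧ blk w < x) ∪ W.filter (fun w => f w = i ∧ blk w = x) := by
      intro w hw
      obtain ⟨q1, q2, q3⟩ := Finset.mem_filter.mp hw
      rw [Finset.mem_union]
      rcases Nat.lt_succ_iff_lt_or_eq.mp q3 with h | h
      · exact Or.inl (Finset.mem_filter.mpr ⟨q1, q2, h⟩)
      · exact Or.inr (Finset.mem_filter.mpr ⟨q1, q2, h⟩)
    have h2 := (Finset.card_le_card h1).trans (Finset.card_union_le _ _)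
    have h3 := hblk x
    show (W.filter (fun w => f w = i ∧ blk w < x + 1)).card ≤
      (W.filter (fun w => f w = i ∧ blk w < x)).card + m
    omega
  have hc0 : c 0 = 0 := by
    show (W.filter (fun w => f w = i ∧ blk w < 0)).card = 0
    rw [Finset.card_eq_zero, Finset.filter_eq_empty_iff]
    intro w _ h
    omega
  have hcB : c B = (W.filter (fun w => f w = i)).card := by
    show (W.filter (fun w => f w = i ∧ blk w < B)).card = _
    congr 1
    apply Finset.filter_congr
    intro w _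
    exact ⟨fun h => h.1, fun h => ⟨h, hB w⟩⟩
  have hsplit : ∀ x, c x + (W.filter (fun w => f w = i ∧ x ≤ blk w)).card =
      (W.filter (fun w => f w = i)).card := by
    intro x
    have := Finset.card_filter_add_card_filter_not (s := W.filter (fun w => f w = i))
      (fun w => blk w < x)
    rw [Finset.filter_filter, Finset.filter_filter] at this
    rw [← this]
    show (W.filter (fun w => f w = i ∧ blk w < x)).card + _ = _
    congr 2
    apply Finset.filter_congr
    intro w _
    rw [not_lt]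
  have hsplit2 : ∀ x y, x ≤ y → c y = c x +
      (W.filter (fun w => f w = i ∧ x ≤ blk w ∧ blk w < y)).card := by
    intro x y hxy
    have := Finset.card_filter_add_card_filter_not
      (s := W.filter (fun w => f w = i ∧ blk w < y)) (fun w => blk w < x)
    rw [Finset.filter_filter, Finset.filter_filter] at this
    show (W.filter (fun w => f w = i ∧ blk w < y)).card =
      (W.filter (fun w => f w = i ∧ blk w < x)).card + _
    rw [← this]
    congr 2
    · apply Finset.filter_congr
      intro w _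
      constructor
      · rintro ⟨⟨a, _⟩, b⟩; exact ⟨a, b⟩
      · rintro ⟨a, b⟩; exact ⟨⟨a, by omega⟩, b⟩
    · apply Finset.filter_congr
      intro w _
      constructor
      · rintro ⟨⟨a, b⟩, c⟩; exact ⟨a, by omega, b⟩
      · rintro ⟨a, b, c⟩; exact ⟨⟨a, c⟩, by omega⟩
  obtain ⟨x1, hx1B, hx1, hx1'⟩ := div_lemma c m B m hstep (by omega) (by omega)
  obtain ⟨x2, hx2B, hx2, hx2'⟩ := div_lemma c m B (c x1 + m) hstep (by omega) (by omega)
  have hmono : x1 ≤ x2 := by
    by_contra hlt
    push Not at hlt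
    have := hsplit2 x2 x1 hlt.le
    omega
  refine ⟨x1, x2, hmono, hx1, ?_, ?_⟩
  · have := hsplit2 x1 x2 hmono
    show m ≤ (W.filter (fun w => f w = i ∧ x1 ≤ blk w ∧ blk w < x2)).card
    omega
  · have := hsplit x2
    show m ≤ (W.filter (fun w => f w = i ∧ x2 ≤ blk w)).card
    omega

/-- lines with many vertices -/
theorem many_lines [Fintype ι] (W : Finset V) {m n : ℕ}
    (hn : ∀ i, (Finset.univ.filter (fun v => f v = i)).card ≤ n)
    (hι : Fintype.card ι ≤ n) (hW : 10 * m * n ≤ W.card) :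
    W.card ≤ 2 * n *
      (Finset.univ.filter (fun i : ι => 5 * m ≤ (W.filter (fun w => f w = i)).card)).card := by
  classical
  set R0 := Finset.univ.filter (fun i : ι => 5 * m ≤ (W.filter (fun w => f w = i)).card) with hR0
  have h1 : W.card = ∑ i : ι, (W.filter (fun w => f w = i)).card :=
    Finset.card_eq_sum_card_fiberwise (fun w _ => Finset.mem_coe.mpr (Finset.mem_univ _))
  have h2 : ∑ i : ι, (W.filter (fun w => f w = i)).card ≤
      ∑ i : ι, ((if i ∈ R0 then n else 0) + 5 * m) := by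
    apply Finset.sum_le_sum
    intro i _
    split_ifs with h
    · have : (W.filter (fun w => f w = i)).card ≤ n := by
        refine (Finset.card_le_card ?_).trans (hn i)
        intro w hw
        exact Finset.mem_filter.mpr ⟨Finset.mem_univ _, (Finset.mem_filter.mp hw).2⟩
      omega
    · rw [hR0, Finset.mem_filter] at h
      have : ¬ 5 * m ≤ (W.filter (fun w => f w = i)).card := fun h' =>
        h ⟨Finset.mem_univ _, h'⟩
      omega
  rw [Finset.sum_add_distrib, Finset.sum_const, Finset.card_univ, smul_eq_mul,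
    ← Finset.sum_filter, Finset.sum_const, smul_eq_mul] at h2
  have h3 : (Finset.univ.filter (fun i => i ∈ R0)).card = R0.card := by
    congr 1; ext i; simp
  rw [h3, ← h1] at h2
  have h4 : Fintype.card ι * (5 * m) ≤ n * (5 * m) := Nat.mul_le_mul_right _ hι
  have h5 : 10 * m * n = 2 * (n * (5 * m)) := by ring
  have h6 : 2 * n * R0.card = 2 * (R0.card * n) := by ring
  omega

/-- the triangles of `W` with vertices in three different blocks -/
def Tri (W : Finset V) (blk : V → ℕ) (f : V → ι) : Finset (V × V × V) :=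
  Finset.univ.filter (fun e => (e.1 ∈ W ∧ e.2.1 ∈ W ∧ e.2.2 ∈ W) ∧
    (f e.2.1 = f e.1 ∧ f e.2.2 = f e.1) ∧ blk e.1 < blk e.2.1 ∧ blk e.2.1 < blk e.2.2)

theorem mem_Tri {W : Finset V} {blk : V → ℕ} {e : V × V × V} :
    e ∈ Tri W blk f ↔ (e.1 ∈ W ∧ e.2.1 ∈ W ∧ e.2.2 ∈ W) ∧
    (f e.2.1 = f e.1 ∧ f e.2.2 = f e.1) ∧ blk e.1 < blk e.2.1 ∧ blk e.2.1 < blk e.2.2 := by
  unfold Tri
  rw [Finset.mem_filter]
  exact ⟨fun h => h.2, fun h => ⟨Finset.mem_univ _, h⟩⟩

theorem tri_lower [Fintype ι] (W : Finset V) (blk : V → ℕ) {B m : ℕ} (hm : 0 < m) (hB : ∀ v, blk v < B)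
    (hblk : ∀ i b, (W.filter (fun w => f w = i ∧ blk w = b)).card ≤ m) :
    (Finset.univ.filter (fun i : ι => 5 * m ≤ (W.filter (fun w => f w = i)).card)).card * m ^ 3 ≤
      (Tri W blk f).card := by
  classical
  set R0 := Finset.univ.filter (fun i : ι => 5 * m ≤ (W.filter (fun w => f w = i)).card) with hR0
  have hfib : ∀ i ∈ R0, m ^ 3 ≤ ((Tri W blk f).filter (fun e => f e.1 = i)).card := by
    intro i hi
    obtain ⟨x1, x2, hx, c1, c2, c3⟩ := cut W blk hm hB i (hblk i) (Finset.mem_filter.mp hi).2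
    have h1 : (W.filter (fun w => f w = i ∧ blk w < x1)) ×ˢ
        (W.filter (fun w => f w = i ∧ x1 ≤ blk w ∧ blk w < x2)) ×ˢ
        (W.filter (fun w => f w = i ∧ x2 ≤ blk w)) ⊆
        (Tri W blk f).filter (fun e => f e.1 = i) := by
      intro e he
      rw [Finset.mem_product, Finset.mem_product] at he
      obtain ⟨a, b, c⟩ := he
      obtain ⟨a1, a2, a3⟩ := Finset.mem_filter.mp a
      obtain ⟨b1, b2, b3, b4⟩ := Finset.mem_filter.mp b
      obtain ⟨d1, d2, d3⟩ := Finset.mem_filter.mp c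
      rw [Finset.mem_filter, mem_Tri]
      exact ⟨⟨⟨a1, b1, d1⟩, ⟨b2.trans a2.symm, d2.trans a2.symm⟩, by omega, by omega⟩, a2⟩
    refine le_trans ?_ (Finset.card_le_card h1)
    rw [Finset.card_product, Finset.card_product]
    calc m ^ 3 = m * (m * m) := by ring
      _ ≤ _ := Nat.mul_le_mul c1 (Nat.mul_le_mul c2 c3)
  calc R0.card * m ^ 3 = ∑ i ∈ R0, m ^ 3 := by rw [Finset.sum_const, smul_eq_mul]
    _ ≤ ∑ i ∈ R0, ((Tri W blk f).filter (fun e => f e.1 = i)).card := Finset.sum_le_sum hfib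
    _ ≤ ∑ i : ι, ((Tri W blk f).filter (fun e => f e.1 = i)).card :=
        Finset.sum_le_sum_of_subset (Finset.subset_univ _)
    _ = (Tri W blk f).card := (Finset.card_eq_sum_card_fiberwise
        (fun w _ => Finset.mem_coe.mpr (Finset.mem_univ _))).symm

/-- triangles with a given kind of edge in a set of pairs -/
theorem pair_bound {n : ℕ} (hn : ∀ i, (Finset.univ.filter (fun v => f v = i)).card ≤ n)
    (T : Finset (V × V × V)) (F : Finset (V × V)) (g : V × V × V → (V × V) × V)
    (hg : Function.Injective g) (hl : ∀ e ∈ T, f (g e).2 = f (g e).1.1) :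
    (T.filter (fun e => (g e).1 ∈ F)).card ≤ n * F.card := by
  classical
  refine Finset.card_le_mul_card_image_of_maps_to (f := fun e => (g e).1)
    (fun e he => (Finset.mem_filter.mp he).2) n ?_
  rintro ⟨a, b⟩ _
  refine le_trans ?_ (hn (f a))
  rw [← Finset.card_image_of_injOn (s := Finset.filter _ _) (f := fun e => (g e).2)]
  · apply Finset.card_le_card
    intro v hv
    obtain ⟨e, he, rfl⟩ := Finset.mem_image.mp hv
    obtain ⟨he, hab⟩ := Finset.mem_filter.mp he
    obtain ⟨he, _⟩ := Finset.mem_filter.mp he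
    have := hl e he
    rw [hab] at this
    exact Finset.mem_filter.mpr ⟨Finset.mem_univ _, this⟩
  · intro e he e' he' heq
    have h1 := (Finset.mem_filter.mp he).2
    have h2 := (Finset.mem_filter.mp he').2
    exact hg (Prod.ext (h1.trans h2.symm) heq)

theorem tri_upper [Fintype ι] (hP : Pages pos f p col) (W : Finset V) {L B n t M : ℕ}
    (hB : ∀ v, pos v / L < B)
    (hn : ∀ i, (Finset.univ.filter (fun v => f v = i)).card ≤ n)
    (hR : (FatR pos f col W t).card ≤ M) (hF : (FatL pos f col W t).card ≤ M) :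
    (Tri W (fun v => pos v / L) f).card ≤ 6 * t * p ^ 3 * B + 6 * n * M := by
  classical
  set blk : V → ℕ := fun v => pos v / L with hblk
  have posblk : ∀ v w : V, blk v < blk w → pos v < pos w := by
    intro v w hvw
    by_contra hle
    push Not at hle
    have := Nat.div_le_div_right (c := L) hle
    have : blk w ≤ blk v := this
    omega
  set X : ℕ → ι → Finset V := fun b i => W.filter (fun w => f w = i ∧ blk w < b) with hX
  set Y : ℕ → ι → Finset V := fun b i => W.filter (fun w => f w = i ∧ blk w = b) with hY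
  set Z : ℕ → ι → Finset V := fun b i => W.filter (fun w => f w = i ∧ b < blk w) with hZ
  set T := Tri W blk f with hT
  let Th : V × V × V → Prop := fun e =>
    Thin col t (X (blk e.2.1) (f e.1)) (Y (blk e.2.1) (f e.1)) (Z (blk e.2.1) (f e.1)) e
  have hthin : (T.filter Th).card ≤ 6 * t * p ^ 3 * B := by
    have hsub : T.filter Th ⊆ (Finset.range B).biUnion (fun b =>
        (Finset.univ : Finset ι).biUnion (fun i =>
          (X b i ×ˢ Y b i ×ˢ Z b i).filter (Thin col t (X b i) (Y b i) (Z b i)))) := by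
      intro e he
      obtain ⟨he, hth⟩ := Finset.mem_filter.mp he
      obtain ⟨⟨a1, a2, a3⟩, ⟨b1, b2⟩, c1, c2⟩ := mem_Tri.mp he
      rw [Finset.mem_biUnion]
      refine ⟨blk e.2.1, Finset.mem_range.mpr (hB _), ?_⟩
      rw [Finset.mem_biUnion]
      refine ⟨f e.1, Finset.mem_univ _, ?_⟩
      rw [Finset.mem_filter, Finset.mem_product, Finset.mem_product]
      exact ⟨⟨Finset.mem_filter.mpr ⟨a1, rfl, c1⟩, Finset.mem_filter.mpr ⟨a2, b1, rfl⟩,
        Finset.mem_filter.mpr ⟨a3, b2, c2⟩⟩, hth⟩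
    refine (Finset.card_le_card hsub).trans ?_
    refine Finset.card_biUnion_le.trans ?_
    calc ∑ b ∈ Finset.range B, ((Finset.univ : Finset ι).biUnion (fun i =>
          (X b i ×ˢ Y b i ×ˢ Z b i).filter (Thin col t (X b i) (Y b i) (Z b i)))).card
        ≤ ∑ b ∈ Finset.range B, 6 * t * p ^ 3 := by
          apply Finset.sum_le_sum
          intro b _
          refine Finset.card_biUnion_le.trans ?_
          refine thin_total hP Finset.univ (X b) (Y b) (Z b) t
            (fun i x hx => (Finset.mem_filter.mp hx).2.1)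
            (fun i x hx => (Finset.mem_filter.mp hx).2.1)
            (fun i x hx => (Finset.mem_filter.mp hx).2.1) ?_ ?_
          · intro i _ j _ x hx y hy
            have h1 := (Finset.mem_filter.mp hx).2.2
            have h2 := (Finset.mem_filter.mp hy).2.2
            exact posblk x y (by omega)
          · intro i _ j _ x hx y hy
            have h1 := (Finset.mem_filter.mp hx).2.2
            have h2 := (Finset.mem_filter.mp hy).2.2
            exact posblk x y (by omega)
      _ = 6 * t * p ^ 3 * B := by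
          rw [Finset.sum_const, Finset.card_range, smul_eq_mul]; ring
  have hmem : ∀ e ∈ T, e.1 ∈ W ∧ e.2.1 ∈ W ∧ e.2.2 ∈ W ∧ f e.2.1 = f e.1 ∧ f e.2.2 = f e.1 ∧
      blk e.1 < blk e.2.1 ∧ blk e.2.1 < blk e.2.2 := by
    intro e he
    obtain ⟨⟨a1, a2, a3⟩, ⟨b1, b2⟩, c1, c2⟩ := mem_Tri.mp he
    exact ⟨a1, a2, a3, b1, b2, c1, c2⟩
  have hR' : ∀ y z, y ∈ W → z ∈ W → f z = f y → pos y < pos z → ∀ S : Finset V,
      (∀ s ∈ S, s ∈ W ∧ f s = f y ∧ pos y < pos s) → t ≤ deg col S y (col y z) →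
      (y, z) ∈ FatR pos f col W t := by
    intro y z hy hz hf hlt S hS hd
    unfold FatR
    rw [Finset.mem_filter, Finset.mem_product]
    refine ⟨⟨hy, hz⟩, Finset.mem_filter.mpr ⟨hz, hf, hlt⟩, hd.trans ?_⟩
    unfold deg
    apply Finset.card_le_card
    intro s hs
    obtain ⟨h1, h2⟩ := Finset.mem_filter.mp hs
    exact Finset.mem_filter.mpr ⟨Finset.mem_filter.mpr (hS s h1), h2⟩
  have hL' : ∀ y z, y ∈ W → z ∈ W → f z = f y → pos z < pos y → ∀ S : Finset V,
      (∀ s ∈ S, s ∈ W ∧ f s = f y ∧ pos s < pos y) → t ≤ deg col S y (col y z) →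
      (y, z) ∈ FatL pos f col W t := by
    intro y z hy hz hf hlt S hS hd
    unfold FatL
    rw [Finset.mem_filter, Finset.mem_product]
    refine ⟨⟨hy, hz⟩, Finset.mem_filter.mpr ⟨hz, hf, hlt⟩, hd.trans ?_⟩
    unfold deg
    apply Finset.card_le_card
    intro s hs
    obtain ⟨h1, h2⟩ := Finset.mem_filter.mp hs
    exact Finset.mem_filter.mpr ⟨Finset.mem_filter.mpr (hS s h1), h2⟩
  have hnon : T.filter (fun e => ¬ Th e) ⊆
      ((((T.filter (fun e => (e.1, e.2.1) ∈ FatR pos f col W t) ∪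
        T.filter (fun e => (e.2.1, e.1) ∈ FatL pos f col W t)) ∪
        T.filter (fun e => (e.2.1, e.2.2) ∈ FatR pos f col W t)) ∪
        T.filter (fun e => (e.2.2, e.2.1) ∈ FatL pos f col W t)) ∪
        T.filter (fun e => (e.1, e.2.2) ∈ FatR pos f col W t)) ∪
        T.filter (fun e => (e.2.2, e.1) ∈ FatL pos f col W t) := by
    intro e he
    obtain ⟨he, hnt⟩ := Finset.mem_filter.mp he
    obtain ⟨a1, a2, a3, b1, b2, c1, c2⟩ := hmem e he
    have p12 := posblk _ _ c1
    have p23 := posblk _ _ c2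
    have hXm : ∀ s ∈ X (blk e.2.1) (f e.1), s ∈ W ∧ f s = f e.1 ∧ blk s < blk e.2.1 :=
      fun s hs => Finset.mem_filter.mp hs
    have hYm : ∀ s ∈ Y (blk e.2.1) (f e.1), s ∈ W ∧ f s = f e.1 ∧ blk s = blk e.2.1 :=
      fun s hs => Finset.mem_filter.mp hs
    have hZm : ∀ s ∈ Z (blk e.2.1) (f e.1), s ∈ W ∧ f s = f e.1 ∧ blk e.2.1 < blk s :=
      fun s hs => Finset.mem_filter.mp hs
    by_contra hcon
    simp only [Finset.mem_union, Finset.mem_filter, not_or, not_and] at hcon
    obtain ⟨⟨⟨⟨⟨n1, n2⟩, n3⟩, n4⟩, n5⟩, n6⟩ := hcon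
    apply hnt
    show Thin col t _ _ _ e
    unfold Thin
    refine ⟨?_, ?_, ?_, ?_, ?_, ?_⟩
    · by_contra hd
      push Not at hd
      exact n1 he (hR' _ _ a1 a2 b1 p12 _ (fun s hs => ⟨(hYm s hs).1, (hYm s hs).2.1,
        posblk _ _ (by rw [(hYm s hs).2.2]; exact c1)⟩) hd)
    · by_contra hd
      push Not at hd
      exact n2 he (hL' _ _ a2 a1 b1.symm p12 _ (fun s hs => ⟨(hXm s hs).1,
        (hXm s hs).2.1.trans b1.symm, posblk _ _ (hXm s hs).2.2⟩) hd)
    · by_contra hd
      push Not at hd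
      exact n3 he (hR' _ _ a2 a3 (b2.trans b1.symm) p23 _ (fun s hs => ⟨(hZm s hs).1,
        (hZm s hs).2.1.trans b1.symm, posblk _ _ (hZm s hs).2.2⟩) hd)
    · by_contra hd
      push Not at hd
      exact n4 he (hL' _ _ a3 a2 (b1.trans b2.symm) p23 _ (fun s hs => ⟨(hYm s hs).1,
        (hYm s hs).2.1.trans b2.symm, posblk _ _ (by rw [(hYm s hs).2.2]; exact c2)⟩) hd)
    · by_contra hd
      push Not at hd
      exact n5 he (hR' _ _ a1 a3 b2 (p12.trans p23) _ (fun s hs => ⟨(hZm s hs).1,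
        (hZm s hs).2.1, posblk _ _ (c1.trans (hZm s hs).2.2)⟩) hd)
    · by_contra hd
      push Not at hd
      exact n6 he (hL' _ _ a3 a1 b2.symm (p12.trans p23) _ (fun s hs => ⟨(hXm s hs).1,
        (hXm s hs).2.1.trans b2.symm, posblk _ _ ((hXm s hs).2.2.trans c2)⟩) hd)
  have k1 := pair_bound hn T (FatR pos f col W t) (fun e => ((e.1, e.2.1), e.2.2))
    (by rintro ⟨a, b, c⟩ ⟨a', b', c'⟩ h; simp only [Prod.mk.injEq] at h ⊢; tauto)
    (fun e he => (hmem e he).2.2.2.2.1)
  have k2 := pair_bound hn T (FatL pos f col W t) (fun e => ((e.2.1, e.1), e.2.2))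
    (by rintro ⟨a, b, c⟩ ⟨a', b', c'⟩ h; simp only [Prod.mk.injEq] at h ⊢; tauto)
    (fun e he => (hmem e he).2.2.2.2.1.trans (hmem e he).2.2.2.1.symm)
  have k3 := pair_bound hn T (FatR pos f col W t) (fun e => ((e.2.1, e.2.2), e.1))
    (by rintro ⟨a, b, c⟩ ⟨a', b', c'⟩ h; simp only [Prod.mk.injEq] at h ⊢; tauto)
    (fun e he => (hmem e he).2.2.2.1.symm)
  have k4 := pair_bound hn T (FatL pos f col W t) (fun e => ((e.2.2, e.2.1), e.1))
    (by rintro ⟨a, b, c⟩ ⟨a', b', c'⟩ h; simp only [Prod.mk.injEq] at h ⊢; tauto)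
    (fun e he => (hmem e he).2.2.2.2.1.symm)
  have k5 := pair_bound hn T (FatR pos f col W t) (fun e => ((e.1, e.2.2), e.2.1))
    (by rintro ⟨a, b, c⟩ ⟨a', b', c'⟩ h; simp only [Prod.mk.injEq] at h ⊢; tauto)
    (fun e he => (hmem e he).2.2.2.1)
  have k6 := pair_bound hn T (FatL pos f col W t) (fun e => ((e.2.2, e.1), e.2.1))
    (by rintro ⟨a, b, c⟩ ⟨a', b', c'⟩ h; simp only [Prod.mk.injEq] at h ⊢; tauto)
    (fun e he => (hmem e he).2.2.2.1.trans (hmem e he).2.2.2.2.1.symm)
  have e0 := (Finset.card_le_card hnon)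
  have e1 := Finset.card_union_le ((((T.filter (fun e => (e.1, e.2.1) ∈ FatR pos f col W t) ∪
        T.filter (fun e => (e.2.1, e.1) ∈ FatL pos f col W t)) ∪
        T.filter (fun e => (e.2.1, e.2.2) ∈ FatR pos f col W t)) ∪
        T.filter (fun e => (e.2.2, e.2.1) ∈ FatL pos f col W t)) ∪
        T.filter (fun e => (e.1, e.2.2) ∈ FatR pos f col W t))
        (T.filter (fun e => (e.2.2, e.1) ∈ FatL pos f col W t))
  have e2 := Finset.card_union_le (((T.filter (fun e => (e.1, e.2.1) ∈ FatR pos f col W t) ∪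
        T.filter (fun e => (e.2.1, e.1) ∈ FatL pos f col W t)) ∪
        T.filter (fun e => (e.2.1, e.2.2) ∈ FatR pos f col W t)) ∪
        T.filter (fun e => (e.2.2, e.2.1) ∈ FatL pos f col W t))
        (T.filter (fun e => (e.1, e.2.2) ∈ FatR pos f col W t))
  have e3 := Finset.card_union_le ((T.filter (fun e => (e.1, e.2.1) ∈ FatR pos f col W t) ∪
        T.filter (fun e => (e.2.1, e.1) ∈ FatL pos f col W t)) ∪
        T.filter (fun e => (e.2.1, e.2.2) ∈ FatR pos f col W t))
        (T.filter (fun e => (e.2.2, e.2.1) ∈ FatL pos f col W t))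
  have e4 := Finset.card_union_le (T.filter (fun e => (e.1, e.2.1) ∈ FatR pos f col W t) ∪
        T.filter (fun e => (e.2.1, e.1) ∈ FatL pos f col W t))
        (T.filter (fun e => (e.2.1, e.2.2) ∈ FatR pos f col W t))
  have e5 := Finset.card_union_le (T.filter (fun e => (e.1, e.2.1) ∈ FatR pos f col W t))
        (T.filter (fun e => (e.2.1, e.1) ∈ FatL pos f col W t))
  have hsplit := Finset.card_filter_add_card_filter_not (s := T) Th
  have mR : n * (FatR pos f col W t).card ≤ n * M := Nat.mul_le_mul_left _ hR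
  have mL : n * (FatL pos f col W t).card ≤ n * M := Nat.mul_le_mul_left _ hF
  have e6 : 6 * n * M = 6 * (n * M) := by ring
  simp only at k1 k2 k3 k4 k5 k6
  rw [e6]
  omega

/-- The main inequality. -/
theorem count [Fintype ι] (hP : Pages pos f p col) (W : Finset V) {L B m n t M : ℕ}
    (hm : 0 < m) (hB : ∀ v, pos v < B * L)
    (hn : ∀ i, (Finset.univ.filter (fun v => f v = i)).card ≤ n)
    (hι : Fintype.card ι ≤ n)
    (hblk : ∀ i b, (W.filter (fun w => f w = i ∧ pos w / L = b)).card ≤ m)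
    (hW : 10 * m * n ≤ W.card)
    (hR : (FatR pos f col W t).card ≤ M) (hF : (FatL pos f col W t).card ≤ M) :
    W.card * m ^ 3 ≤ 2 * n * (6 * t * p ^ 3 * B + 6 * n * M) := by
  have hB' : ∀ v, pos v / L < B := fun v => Nat.div_lt_of_lt_mul (by rw [mul_comm]; exact hB v)
  have h1 := many_lines (f := f) W hn hι hW
  have h2 := tri_lower (f := f) W (fun v => pos v / L) hm hB' hblk
  have h3 := tri_upper hP W hB' hn hR hF
  calc W.card * m ^ 3 ≤ (2 * n * (Finset.univ.filter (fun i : ι =>
        5 * m ≤ (W.filter (fun w => f w = i)).card)).card) * m ^ 3 := Nat.mul_le_mul_right _ h1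
    _ = 2 * n * ((Finset.univ.filter (fun i : ι =>
        5 * m ≤ (W.filter (fun w => f w = i)).card)).card * m ^ 3) := by ring
    _ ≤ 2 * n * (6 * t * p ^ 3 * B + 6 * n * M) := Nat.mul_le_mul_left _ (h2.trans h3)

end

end Pool.Agent.H26.RK
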