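import Pool.Agent.H26.RK.Core

/-!
# The book thickness of the rook's graph is at least `c n ^ (8 / 7)`
-/

set_option autoImplicit false

namespace Pool.Agent.H26.RK

open Finset Pool.Agent.Results.MP_fb44d2_co.Superlinear

/-- Sizes excluded, with `K = 100 a b E ^ 11`. -/
def sz (K C : ℕ) : ℕ := K * C ^ 7

theorem not_embeds {a b E C N p : ℕ} (ha : a = 46656000000) (hb : b = 7776000) (hE : E = 77760000)
    (hC : 0 < C) (hN : sz (100 * a * b * E ^ 11) C ≤ N)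
    (hp : p ≤ C * sz (100 * a * b * E ^ 11) C) : ¬ HasBookEmbedding (rook N) p := by
  intro h
  have ha0 : 0 < a := by omega
  have hb0 : 0 < b := by omega
  have hE0 : 0 < E := by omega
  obtain ⟨n, hn⟩ : ∃ n, n = sz (100 * a * b * E ^ 11) C := ⟨_, rfl⟩
  rw [← hn] at hN hp
  have hs : 0 < n := by rw [hn]; unfold sz; positivity
  obtain ⟨pos, col, h1, h2, h3⟩ := pages_of_embedding hN hp (Nat.mul_pos hC hs) h
  refine no_pages (C := C) (n := n) (col := col) h1 h2 (fun x y a b => Prod.ext a b) hC ha hb hE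
    hn ?_ ?_ ?_ ?_ h3 ?_
  · intro i
    calc (Finset.univ.filter (fun v : Fin n × Fin n => v.1 = i)).card
        ≤ (Finset.univ : Finset (Fin n)).card := by
          apply Finset.card_le_card_of_injOn Prod.snd (fun _ _ => Finset.mem_coe.mpr
            (Finset.mem_univ _))
          intro v hv w hw hvw
          exact Prod.ext ((Finset.mem_filter.mp hv).2.trans (Finset.mem_filter.mp hw).2.symm) hvw
      _ = n := by rw [Finset.card_univ, Fintype.card_fin]
  · intro i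
    calc (Finset.univ.filter (fun v : Fin n × Fin n => v.2 = i)).card
        ≤ (Finset.univ : Finset (Fin n)).card := by
          apply Finset.card_le_card_of_injOn Prod.fst (fun _ _ => Finset.mem_coe.mpr
            (Finset.mem_univ _))
          intro v hv w hw hvw
          exact Prod.ext hvw ((Finset.mem_filter.mp hv).2.trans (Finset.mem_filter.mp hw).2.symm)
      _ = n := by rw [Finset.card_univ, Fintype.card_fin]
  · rw [Fintype.card_fin]
  · rw [Fintype.card_fin]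
  · rw [Fintype.card_prod, Fintype.card_fin]

theorem sz_step (K C : ℕ) (hC : 0 < C) : sz K (C + 1) ≤ 2 ^ 7 * sz K C := by
  unfold sz
  have : (C + 1) ^ 7 ≤ (2 * C) ^ 7 := Nat.pow_le_pow_left (by omega) _
  calc K * (C + 1) ^ 7 ≤ K * (2 * C) ^ 7 := Nat.mul_le_mul_left _ this
    _ = _ := by ring

theorem eight : ∃ K : ℕ, 0 < K ∧ ∀ n p : ℕ, 2 ≤ n → HasBookEmbedding (rook n) p →
    n ^ 8 ≤ K * p ^ 7 := by
  obtain ⟨a, ha⟩ : ∃ a, a = 46656000000 := ⟨_, rfl⟩
  obtain ⟨b, hb⟩ : ∃ b, b = 7776000 := ⟨_, rfl⟩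
  obtain ⟨E, hE⟩ : ∃ E, E = 77760000 := ⟨_, rfl⟩
  have ha0 : 0 < a := by omega
  have hb0 : 0 < b := by omega
  have hE0 : 0 < E := by omega
  obtain ⟨K0, hK0⟩ : ∃ K, K = 100 * a * b * E ^ 11 := ⟨_, rfl⟩
  have hK0pos : 0 < K0 := by rw [hK0]; positivity
  refine ⟨(2 ^ 7) ^ 8 * K0 ^ 8, by positivity, ?_⟩
  intro N p hN h
  have hp := pages_pos hN h
  have hex : ∃ C, N < sz K0 (C + 1) := by
    refine ⟨N, ?_⟩
    have h1 : N + 1 ≤ (N + 1) ^ 7 := Nat.le_self_pow (by norm_num) _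
    have h2 : (N + 1) ^ 7 ≤ sz K0 (N + 1) := by
      unfold sz
      exact Nat.le_mul_of_pos_left _ hK0pos
    omega
  classical
  rcases Nat.eq_zero_or_pos (Nat.find hex) with h0 | h0
  · have h1 := Nat.find_spec hex
    rw [h0, zero_add] at h1
    have h1' : N < K0 := by
      unfold sz at h1
      rwa [one_pow, mul_one] at h1
    calc N ^ 8 ≤ K0 ^ 8 := Nat.pow_le_pow_left h1'.le _
      _ = 1 * K0 ^ 8 * 1 := by ring
      _ ≤ (2 ^ 7) ^ 8 * K0 ^ 8 * p ^ 7 := by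
          have h2 : 1 ≤ (2 ^ 7) ^ 8 := Nat.one_le_pow _ _ (by norm_num)
          exact Nat.mul_le_mul (Nat.mul_le_mul_right _ h2) (Nat.one_le_pow _ _ hp)
  · have h1 := Nat.find_spec hex
    have h2 := Nat.find_min hex (Nat.sub_lt h0 one_pos)
    rw [show Nat.find hex - 1 + 1 = Nat.find hex by omega] at h2
    push Not at h2
    obtain ⟨C, hC⟩ : ∃ C, C = Nat.find hex := ⟨_, rfl⟩
    rw [← hC] at h1 h2 h0
    have h3 : C * sz K0 C < p := by
      by_contra hle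
      push Not at hle
      rw [hK0] at h2 hle
      exact not_embeds ha hb hE h0 h2 hle h
    have h4 : N ≤ 2 ^ 7 * sz K0 C := h1.le.trans (sz_step K0 C h0)
    have h5 : N ≤ 2 ^ 7 * (K0 * C ^ 7) := h4
    calc N ^ 8 = N ^ 7 * N := by ring
      _ ≤ (2 ^ 7 * sz K0 C) ^ 7 * (2 ^ 7 * (K0 * C ^ 7)) :=
          Nat.mul_le_mul (Nat.pow_le_pow_left h4 _) h5
      _ = (2 ^ 7) ^ 8 * K0 * (C * sz K0 C) ^ 7 := by ring
      _ ≤ (2 ^ 7) ^ 8 * K0 ^ 8 * p ^ 7 := by
          refine Nat.mul_le_mul (Nat.mul_le_mul_left _ (Nat.le_self_pow (by norm_num) _)) ?_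
          exact Nat.pow_le_pow_left h3.le _

theorem main :
    ∃ c : ℝ, 0 < c ∧ ∀ n : ℕ, 2 ≤ n →
      c * (n : ℝ) ^ ((1 : ℝ) + 1 / 7) ≤ (bookThickness (rook n) : ℝ) := by
  obtain ⟨K, hK, hmain⟩ := eight
  have key : ∀ n : ℕ, 2 ≤ n → n ^ 8 ≤ K * bookThickness (rook n) ^ 7 := fun n hn =>
    hmain n _ hn (bookThickness_spec _)
  have hKr : (0 : ℝ) < K := by exact_mod_cast hK
  refine ⟨((K : ℝ) ^ ((1 : ℝ) / 7))⁻¹, by positivity, ?_⟩
  intro n hn
  have h1 : ((n : ℝ)) ^ 8 ≤ K * (bookThickness (rook n) : ℝ) ^ 7 := by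
    exact_mod_cast key n hn
  have hn0 : (0 : ℝ) ≤ n := Nat.cast_nonneg _
  have h2 : (n : ℝ) ^ ((1 : ℝ) + 1 / 7) ≤
      (K : ℝ) ^ ((1 : ℝ) / 7) * (bookThickness (rook n) : ℝ) := by
    have h3 := Real.rpow_le_rpow (by positivity) h1 (show (0 : ℝ) ≤ 1 / 7 by norm_num)
    rw [Real.mul_rpow (by positivity) (by positivity)] at h3
    have e1 : ((n : ℝ) ^ 8) ^ ((1 : ℝ) / 7) = (n : ℝ) ^ ((1 : ℝ) + 1 / 7) := by
      rw [← Real.rpow_natCast, ← Real.rpow_mul hn0]
      congr 1; norm_num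
    have e2 : ((bookThickness (rook n) : ℝ) ^ 7) ^ ((1 : ℝ) / 7) =
        (bookThickness (rook n) : ℝ) := by
      rw [← Real.rpow_natCast, ← Real.rpow_mul (by positivity)]
      norm_num
    rwa [e1, e2] at h3
  rw [inv_mul_le_iff₀ (by positivity)]
  exact h2

end Pool.Agent.H26.RK
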