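import Pool.Graph.R_seed8.Results.MP_fb44d2_co.Superlinear

/-!
# Packing of the fans of a book embedding of the rook's graph, without separated sets
-/

set_option autoImplicit false

namespace Pool.Agent.H26.RK

open Finset Pool.Agent.Results.MP_fb44d2_co.Superlinear

section

variable {V ι : Type} [Fintype V] [DecidableEq V] [DecidableEq ι]

/-- the members of `W` on the line of `y` to the right of `y` -/
def rt (W : Finset V) (pos : V → ℕ) (f : V → ι) (y : V) : Finset V :=
  W.filter (fun z => f z = f y ∧ pos y < pos z)

/-- the members of `W` on the line of `y` to the left of `y` -/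
def lf (W : Finset V) (pos : V → ℕ) (f : V → ι) (y : V) : Finset V :=
  W.filter (fun z => f z = f y ∧ pos z < pos y)

/-- pairs in big fans to the right -/
def FatR {p : ℕ} (pos : V → ℕ) (f : V → ι) (col : V → V → Fin p) (W : Finset V) (t : ℕ) :
    Finset (V × V) :=
  (W ×ˢ W).filter (fun e => e.2 ∈ rt W pos f e.1 ∧
    t ≤ ((rt W pos f e.1).filter (fun z => col e.1 z = col e.1 e.2)).card)

/-- pairs in big fans to the left -/
def FatL {p : ℕ} (pos : V → ℕ) (f : V → ι) (col : V → V → Fin p) (W : Finset V) (t : ℕ) :
    Finset (V × V) :=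
  (W ×ˢ W).filter (fun e => e.2 ∈ lf W pos f e.1 ∧
    t ≤ ((lf W pos f e.1).filter (fun z => col e.1 z = col e.1 e.2)).card)

variable {pos : V → ℕ} {f : V → ι} {p : ℕ} {col : V → V → Fin p}

/-- the second vertex lies in an interior cell of its fan -/
def InterR (W : Finset V) (pos : V → ℕ) (f : V → ι) (col : V → V → Fin p) (h : ℕ)
    (e : V × V) : Prop :=
  ∃ z1 ∈ rt W pos f e.1, ∃ z2 ∈ rt W pos f e.1, col e.1 z1 = col e.1 e.2 ∧
    col e.1 z2 = col e.1 e.2 ∧ pos z1 / h < pos e.2 / h ∧ pos e.2 / h < pos z2 / h

/-- Packing of big fans to the right. -/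
theorem packR (hP : Pages pos f p col) (W : Finset V) {t h Q θ τ n : ℕ} (hτ : 4 * τ ≤ t)
    (hcell : ∀ i q, (W.filter (fun w => f w = i ∧ pos w / h = q)).card ≤ τ)
    (hQ : ∀ v, pos v < Q * h)
    (hn : ∀ i, (Finset.univ.filter (fun v => f v = i)).card ≤ n) :
    (FatR pos f col W t).card ≤ 2 * (n * (Dense W pos f h θ).card + p * Q * θ) := by
  classical
  set E := FatR pos f col W t with hE
  have hmE : ∀ e ∈ E, e.1 ∈ W ∧ e.2 ∈ rt W pos f e.1 ∧
      t ≤ ((rt W pos f e.1).filter (fun z => col e.1 z = col e.1 e.2)).card := by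
    intro e he
    rw [hE, FatR, Finset.mem_filter, Finset.mem_product] at he
    exact ⟨he.1.1, he.2.1, he.2.2⟩
  have hrt : ∀ y z, z ∈ rt W pos f y → z ∈ W ∧ f z = f y ∧ pos y < pos z := by
    intro y z hz
    exact Finset.mem_filter.mp hz
  have hEm : ∀ y z, y ∈ W → z ∈ rt W pos f y →
      t ≤ ((rt W pos f y).filter (fun z' => col y z' = col y z)).card → (y, z) ∈ E := by
    intro y z hy hz hd
    rw [hE, FatR, Finset.mem_filter, Finset.mem_product]
    exact ⟨⟨hy, (hrt y z hz).1⟩, hz, hd⟩
  set E' := E.filter (InterR W pos f col h) with hE'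
  have hhalf : E.card ≤ 2 * E'.card := by
    have k1 : E.card = ∑ x ∈ (Finset.univ : Finset (V × Fin p)),
        (E.filter (fun e => (e.1, col e.1 e.2) = x)).card :=
      Finset.card_eq_sum_card_fiberwise (fun e _ => Finset.mem_coe.mpr (Finset.mem_univ _))
    have k2 : E'.card = ∑ x ∈ (Finset.univ : Finset (V × Fin p)),
        (E'.filter (fun e => (e.1, col e.1 e.2) = x)).card :=
      Finset.card_eq_sum_card_fiberwise (fun e _ => Finset.mem_coe.mpr (Finset.mem_univ _))
    rw [k1, k2, Finset.mul_sum]
    apply Finset.sum_le_sum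
    rintro ⟨y, a⟩ _
    rcases (E.filter (fun e => (e.1, col e.1 e.2) = (y, a))).eq_empty_or_nonempty with h1 | h1
    · rw [h1]; simp
    obtain ⟨e0, he00⟩ := h1
    obtain ⟨he0E, hx0⟩ := Finset.mem_filter.mp he00
    simp only [Prod.mk.injEq] at hx0
    obtain ⟨rfl, rfl⟩ := hx0
    obtain ⟨a1, a3, a4⟩ := hmE e0 he0E
    set A := (rt W pos f e0.1).filter (fun z => col e0.1 z = col e0.1 e0.2) with hA
    have hAcard : t ≤ A.card := a4
    have hAne : A.Nonempty := ⟨e0.2, Finset.mem_filter.mpr ⟨a3, rfl⟩⟩
    obtain ⟨zm, hzm, hmin⟩ := Finset.exists_min_image A (fun z => pos z / h) hAne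
    obtain ⟨zM, hzM, hmax⟩ := Finset.exists_max_image A (fun z => pos z / h) hAne
    have hfib : (E.filter (fun e => (e.1, col e.1 e.2) = (e0.1, col e0.1 e0.2))).card = A.card := by
      rw [← Finset.card_image_of_injOn (s := E.filter _) (f := Prod.snd)]
      · congr 1
        ext z
        constructor
        · intro hz
          obtain ⟨e, he, rfl⟩ := Finset.mem_image.mp hz
          obtain ⟨he, hx⟩ := Finset.mem_filter.mp he
          simp only [Prod.mk.injEq] at hx
          obtain ⟨_, q3, _⟩ := hmE e he
          rw [hx.1] at q3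
          refine Finset.mem_filter.mpr ⟨q3, ?_⟩
          rw [← hx.2, hx.1]
        · intro hz
          obtain ⟨hz1, hz2⟩ := Finset.mem_filter.mp hz
          refine Finset.mem_image.mpr ⟨(e0.1, z), Finset.mem_filter.mpr ⟨?_, ?_⟩, rfl⟩
          · apply hEm _ _ a1 hz1
            rw [hz2]; exact a4
          · simp only [Prod.mk.injEq, true_and]; exact hz2
      · intro e he e' he' heq
        have q1 := (Finset.mem_filter.mp he).2
        have q2 := (Finset.mem_filter.mp he').2
        simp only [Prod.mk.injEq] at q1 q2
        exact Prod.ext (q1.1.trans q2.1.symm) heq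
    have hfib' : A.card ≤
        (E'.filter (fun e => (e.1, col e.1 e.2) = (e0.1, col e0.1 e0.2))).card + 2 * τ := by
      have hsub : A ⊆ ((E'.filter (fun e => (e.1, col e.1 e.2) = (e0.1, col e0.1 e0.2))).image
          Prod.snd ∪ W.filter (fun w => f w = f e0.1 ∧ pos w / h = pos zm / h)) ∪
          W.filter (fun w => f w = f e0.1 ∧ pos w / h = pos zM / h) := by
        intro z hz
        rw [Finset.mem_union, Finset.mem_union]
        obtain ⟨hz1, hz2⟩ := Finset.mem_filter.mp hz
        obtain ⟨r1, r2, r3⟩ := hrt _ _ hz1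
        by_cases c1 : pos z / h = pos zm / h
        · exact Or.inl (Or.inr (Finset.mem_filter.mpr ⟨r1, r2, c1⟩))
        by_cases c2 : pos z / h = pos zM / h
        · exact Or.inr (Finset.mem_filter.mpr ⟨r1, r2, c2⟩)
        left; left
        have hzE : (e0.1, z) ∈ E := by
          apply hEm _ _ a1 hz1
          rw [hz2]; exact a4
        refine Finset.mem_image.mpr ⟨(e0.1, z), Finset.mem_filter.mpr ⟨?_, ?_⟩, rfl⟩
        · rw [hE', Finset.mem_filter]
          refine ⟨hzE, zm, (Finset.mem_filter.mp hzm).1, zM, (Finset.mem_filter.mp hzM).1,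
            ?_, ?_, ?_, ?_⟩
          · show col e0.1 zm = col e0.1 z
            rw [hz2]; exact (Finset.mem_filter.mp hzm).2
          · show col e0.1 zM = col e0.1 z
            rw [hz2]; exact (Finset.mem_filter.mp hzM).2
          · show pos zm / h < pos z / h
            have := hmin z hz
            omega
          · show pos z / h < pos zM / h
            have := hmax z hz
            omega
        · simp only [Prod.mk.injEq, true_and]; exact hz2
      have d1 := Finset.card_le_card hsub
      have d2 := Finset.card_union_le (((E'.filter (fun e => (e.1, col e.1 e.2) =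
        (e0.1, col e0.1 e0.2))).image Prod.snd ∪
        W.filter (fun w => f w = f e0.1 ∧ pos w / h = pos zm / h)))
        (W.filter (fun w => f w = f e0.1 ∧ pos w / h = pos zM / h))
      have d3 := Finset.card_union_le ((E'.filter (fun e => (e.1, col e.1 e.2) =
        (e0.1, col e0.1 e0.2))).image Prod.snd)
        (W.filter (fun w => f w = f e0.1 ∧ pos w / h = pos zm / h))
      have d4 := hcell (f e0.1) (pos zm / h)
      have d5 := hcell (f e0.1) (pos zM / h)
      have d6 : ((E'.filter (fun e => (e.1, col e.1 e.2) =
        (e0.1, col e0.1 e0.2))).image Prod.snd).card ≤ _ := Finset.card_image_le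
      omega
    rw [hfib]
    omega
  have hcount : E'.card ≤ n * (Dense W pos f h θ).card + p * Q * θ := by
    have hsplit := Finset.card_filter_add_card_filter_not (s := E')
      (fun e => e.2 ∈ Dense W pos f h θ)
    have hd : (E'.filter (fun e => e.2 ∈ Dense W pos f h θ)).card ≤
        n * (Dense W pos f h θ).card := by
      have := Finset.card_le_mul_card_image_of_maps_to
        (s := E'.filter (fun e => e.2 ∈ Dense W pos f h θ)) (t := Dense W pos f h θ)
        (f := Prod.snd) (fun e he => (Finset.mem_filter.mp he).2) n ?_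
      · exact this
      · intro z _
        refine le_trans ?_ (hn (f z))
        rw [← Finset.card_image_of_injOn (s := Finset.filter _ _) (f := Prod.fst)]
        · apply Finset.card_le_card
          intro y hy
          obtain ⟨e, he, rfl⟩ := Finset.mem_image.mp hy
          obtain ⟨he, hez⟩ := Finset.mem_filter.mp he
          have heE : e ∈ E := (Finset.mem_filter.mp (Finset.mem_filter.mp he).1).1
          refine Finset.mem_filter.mpr ⟨Finset.mem_univ _, ?_⟩
          rw [← hez]
          exact (hrt _ _ (hmE e heE).2.1).2.1.symm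
        · intro e he e' he' heq
          have q1 := (Finset.mem_filter.mp he).2
          have q2 := (Finset.mem_filter.mp he').2
          exact Prod.ext heq (q1.trans q2.symm)
    have hnd : (E'.filter (fun e => ¬ e.2 ∈ Dense W pos f h θ)).card ≤ p * Q * θ := by
      have key := Finset.card_le_mul_card_image_of_maps_to
        (s := E'.filter (fun e => ¬ e.2 ∈ Dense W pos f h θ))
        (t := (Finset.univ : Finset (Fin p)) ×ˢ Finset.range Q)
        (f := fun e => (col e.1 e.2, pos e.2 / h)) ?_ θ ?_
      · rw [Finset.card_product, Finset.card_univ, Fintype.card_fin, Finset.card_range] at key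
        calc _ ≤ θ * (p * Q) := key
          _ = p * Q * θ := by ring
      · intro e _
        rw [Finset.mem_product, Finset.mem_range]
        exact ⟨Finset.mem_univ _, Nat.div_lt_of_lt_mul (by rw [mul_comm]; exact hQ _)⟩
      · rintro ⟨a, q⟩ _
        rcases ((E'.filter (fun e => ¬ e.2 ∈ Dense W pos f h θ)).filter
          (fun e => (col e.1 e.2, pos e.2 / h) = (a, q))).eq_empty_or_nonempty with h1 | h1
        · rw [h1]; simp
        obtain ⟨e0, he0⟩ := h1
        obtain ⟨he0, hx0⟩ := Finset.mem_filter.mp he0
        obtain ⟨he0, hnd0⟩ := Finset.mem_filter.mp he0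
        simp only [Prod.mk.injEq] at hx0
        obtain ⟨g1, g3, g4⟩ := hmE e0 (Finset.mem_filter.mp he0).1
        have hlt : ∀ e ∈ E', ∀ e' ∈ E', col e.1 e.2 = col e'.1 e'.2 →
            pos e.2 / h = pos e'.2 / h → pos e.1 < pos e'.1 → False := by
          intro e he e' he' hc hq hlt
          obtain ⟨heE, _⟩ := Finset.mem_filter.mp he
          obtain ⟨heE', w1, hw1, w2, hw2, c1, c2, l1, l2⟩ := Finset.mem_filter.mp he'
          obtain ⟨_, r2, _⟩ := hmE e heE
          obtain ⟨_, s2, s3⟩ := hrt _ _ r2
          obtain ⟨_, u2, u3⟩ := hrt _ _ hw1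
          obtain ⟨_, v2, v3⟩ := hrt _ _ hw2
          have m1 : pos w1 < pos e.2 := by
            by_contra hle
            push Not at hle
            have := Nat.div_le_div_right (c := h) hle
            omega
          have m2 : pos e.2 < pos w2 := by
            by_contra hle
            push Not at hle
            have := Nat.div_le_div_right (c := h) hle
            omega
          exact hP.nc e.1 e.2 e'.1 w2 s2.symm v2.symm hlt (by omega) m2 (by rw [hc, c2])
        have huniq : ∀ e ∈ E', col e.1 e.2 = col e0.1 e0.2 → pos e.2 / h = pos e0.2 / h →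
            e.1 = e0.1 := by
          intro e he hc hq
          rcases lt_trichotomy (pos e.1) (pos e0.1) with hlt' | hlt' | hlt'
          · exact (hlt e he e0 he0 hc hq hlt').elim
          · exact hP.inj hlt'
          · exact (hlt e0 he0 e he hc.symm hq.symm hlt').elim
        have hcell' : ¬ θ ≤ (W.filter (fun w => f w = f e0.2 ∧ pos w / h = pos e0.2 / h)).card := by
          intro hθ
          apply hnd0
          unfold Pool.Agent.Results.MP_fb44d2_co.Superlinear.Dense
          exact Finset.mem_filter.mpr ⟨(hrt _ _ g3).1, hθ⟩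
        refine le_trans ?_ (not_le.mp hcell').le
        rw [← Finset.card_image_of_injOn (s := Finset.filter _ _) (f := Prod.snd)]
        · apply Finset.card_le_card
          intro z hz
          obtain ⟨e, he, rfl⟩ := Finset.mem_image.mp hz
          obtain ⟨he, hx⟩ := Finset.mem_filter.mp he
          obtain ⟨he, _⟩ := Finset.mem_filter.mp he
          simp only [Prod.mk.injEq] at hx
          have he1 := huniq e he (hx.1.trans hx0.1.symm) (hx.2.trans hx0.2.symm)
          have heE : e ∈ E := (Finset.mem_filter.mp he).1
          obtain ⟨_, r3, _⟩ := hmE e heE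
          refine Finset.mem_filter.mpr ⟨(hrt _ _ r3).1, ?_, hx.2.trans hx0.2.symm⟩
          rw [(hrt _ _ r3).2.1, (hrt _ _ g3).2.1, he1]
        · intro e he e' he' heq
          have q1 := Finset.mem_filter.mp he
          have q2 := Finset.mem_filter.mp he'
          have x1 := q1.2
          have x2 := q2.2
          simp only [Prod.mk.injEq] at x1 x2
          have y1 := huniq e (Finset.mem_filter.mp q1.1).1 (x1.1.trans hx0.1.symm)
            (x1.2.trans hx0.2.symm)
          have y2 := huniq e' (Finset.mem_filter.mp q2.1).1 (x2.1.trans hx0.1.symm)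
            (x2.2.trans hx0.2.symm)
          exact Prod.ext (y1.trans y2.symm) heq
    omega
  omega

/-- reflected cells -/
theorem refl_div {Q h x : ℕ} (h0 : 0 < h) (hx : x < Q * h) :
    (Q * h - 1 - x) / h = Q - 1 - x / h := by
  have h1 : x / h < Q := Nat.div_lt_of_lt_mul (by rw [mul_comm]; exact hx)
  have h2 := Nat.div_add_mod x h
  have h3 := Nat.mod_lt x h0
  obtain ⟨d, hd⟩ : ∃ d, Q = x / h + 1 + d := ⟨Q - (x / h + 1), by omega⟩
  have h4 : Q - 1 - x / h = d := by omega
  rw [h4]
  have h5 : Q * h = (x / h) * h + h + d * h := by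
    conv_lhs => rw [hd]
    ring
  have h6 : h * (x / h) = (x / h) * h := mul_comm _ _
  have h7 : Q * h - 1 - x = (h - 1 - x % h) + d * h := by omega
  rw [h7, Nat.add_mul_div_right _ _ h0, Nat.div_eq_of_lt (by omega), zero_add]

/-- Packing of big fans to the left. -/
theorem packL (hP : Pages pos f p col) (W : Finset V) {t h Q θ τ n : ℕ} (h0 : 0 < h)
    (hτ : 4 * τ ≤ t)
    (hcell : ∀ i q, (W.filter (fun w => f w = i ∧ pos w / h = q)).card ≤ τ)
    (hQ : ∀ v, pos v < Q * h)
    (hn : ∀ i, (Finset.univ.filter (fun v => f v = i)).card ≤ n) :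
    (FatL pos f col W t).card ≤ 2 * (n * (Dense W pos f h θ).card + p * Q * θ) := by
  classical
  set pos' : V → ℕ := fun v => Q * h - 1 - pos v with hpos'
  have hlt : ∀ v w, pos' v < pos' w ↔ pos w < pos v := by
    intro v w
    have h1 := hQ v
    have h2 := hQ w
    show Q * h - 1 - pos v < Q * h - 1 - pos w ↔ pos w < pos v
    omega
  have hdiv : ∀ v, pos' v / h = Q - 1 - pos v / h := fun v => refl_div h0 (hQ v)
  have hdlt : ∀ v, pos v / h < Q := fun v => Nat.div_lt_of_lt_mul (by rw [mul_comm]; exact hQ v)
  have hdeq : ∀ v w, pos' v / h = pos' w / h ↔ pos v / h = pos w / h := by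
    intro v w
    have h1 := hdlt v
    have h2 := hdlt w
    rw [hdiv, hdiv]
    omega
  have hP' : Pages pos' f p col := by
    refine ⟨?_, hP.symm, ?_⟩
    · intro v w hvw
      apply hP.inj
      rcases lt_trichotomy (pos v) (pos w) with h1 | h1 | h1
      · have := (hlt w v).mpr h1
        omega
      · exact h1
      · have := (hlt v w).mpr h1
        omega
    · intro a b c d hab hcd h1 h2 h3
      rw [hlt] at h1 h2 h3
      have := hP.nc d c b a hcd.symm hab.symm h3 h2 h1
      rw [hP.symm a b, hP.symm c d]
      exact this.symm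
  have hD : Dense W pos' f h θ = Dense W pos f h θ := by
    unfold Pool.Agent.Results.MP_fb44d2_co.Superlinear.Dense
    apply Finset.filter_congr
    intro z _
    have : W.filter (fun w => f w = f z ∧ pos' w / h = pos' z / h) =
        W.filter (fun w => f w = f z ∧ pos w / h = pos z / h) := by
      apply Finset.filter_congr
      intro w _
      rw [hdeq]
    rw [this]
  have hF : FatL pos f col W t = FatR pos' f col W t := by
    have hr : ∀ y, rt W pos' f y = lf W pos f y := by
      intro y
      unfold rt lf
      apply Finset.filter_congr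
      intro z _
      rw [hlt]
    unfold FatL FatR
    apply Finset.filter_congr
    intro e _
    rw [hr]
  rw [hF, ← hD]
  apply packR hP' W hτ _ _ hn
  · intro i q
    by_cases hq : q < Q
    · refine le_trans (le_of_eq ?_) (hcell i (Q - 1 - q))
      congr 1
      apply Finset.filter_congr
      intro w _
      have h1 := hdlt w
      rw [hdiv]
      constructor
      · rintro ⟨a, b⟩; exact ⟨a, by omega⟩
      · rintro ⟨a, b⟩; exact ⟨a, by omega⟩
    · have : W.filter (fun w => f w = i ∧ pos' w / h = q) = ∅ := by
        rw [Finset.filter_eq_empty_iff]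
        rintro w _ ⟨_, b⟩
        have h1 : 0 < Q := (Nat.zero_le _).trans_lt (hdlt w)
        rw [hdiv] at b
        have h2 : Q - 1 - pos w / h ≤ Q - 1 := Nat.sub_le _ _
        omega
      rw [this, Finset.card_empty]
      exact Nat.zero_le _
  · intro v
    have h1 := hQ v
    show Q * h - 1 - pos v < Q * h
    omega

end

end Pool.Agent.H26.RK
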