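import Pool.Graph.R_seed8.Results.MP_fb44d2_co.Superlinear

/-!
# Book embeddings of the rook's graph on few pages: general lemmas
-/

set_option autoImplicit false

namespace Pool.Agent.H26.RK

open Finset Pool.Agent.Results.MP_fb44d2_co.Superlinear

theorem of_pairs {V π : Type} [Fintype π] (G : SimpleGraph V) (r : LinearOrder V)
    (pg : V → V → π)
    (h : ∀ a b c d, G.Adj a b → G.Adj c d → r.lt a c → r.lt c b → r.lt b d → pg a b ≠ pg c d)
    {P : ℕ} (hP : Fintype.card π ≤ P) : HasBookEmbedding G P := by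
  classical
  let s : Sym2 V → π := Sym2.lift ⟨fun a b => if r.lt a b then pg a b else pg b a, by
    intro a b
    by_cases h1 : r.lt a b
    · have h2 : ¬ r.lt b a := @lt_asymm _ r.toPreorder _ _ h1
      simp only [h1, h2, if_true, if_false]
    · by_cases h2 : r.lt b a
      · simp only [h1, h2, if_true, if_false]
      · have h3 : a = b := by
          rcases @lt_trichotomy _ r a b with h | h | h
          · exact absurd h h1
          · exact h
          · exact absurd h h2
        subst h3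
        rfl⟩
  refine ⟨r, fun e => Fin.castLE hP (Fintype.equivFin π (s e.1)), ?_⟩
  intro a b c d hab hcd h1 h2 h3 heq
  have h4 := (Fintype.equivFin π).injective (Fin.castLE_injective hP heq)
  have hab' : r.lt a b := @lt_trans _ r.toPreorder _ _ _ h1 h2
  have hcd' : r.lt c d := @lt_trans _ r.toPreorder _ _ _ h2 h3
  have h5 : (if r.lt a b then pg a b else pg b a) = (if r.lt c d then pg c d else pg d c) := h4
  rw [if_pos hab', if_pos hcd'] at h5
  exact h a b c d hab hcd h1 h2 h3 h5

theorem restrict {V W : Type} {G : SimpleGraph V} {H : SimpleGraph W} {P : ℕ} (φ : W → V)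
    (hφ : Function.Injective φ) (hadj : ∀ x y, H.Adj x y → G.Adj (φ x) (φ y))
    (h : HasBookEmbedding G P) : HasBookEmbedding H P := by
  classical
  obtain ⟨r, page, hp⟩ := h
  have hP : ∀ x y, H.Adj x y → 0 < P := fun x y hxy =>
    Nat.lt_of_le_of_lt (Nat.zero_le _) (page ⟨s(φ x, φ y), hadj x y hxy⟩).isLt
  let r' : LinearOrder W := @LinearOrder.lift' W V r φ hφ
  let q : Sym2 V → ℕ := fun e => if he : e ∈ G.edgeSet then (page ⟨e, he⟩ : ℕ) else 0
  have hq : ∀ x y (hxy : H.Adj x y), q (Sym2.map φ s(x, y)) =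
      (page ⟨s(φ x, φ y), hadj x y hxy⟩ : ℕ) := by
    intro x y hxy
    have he : Sym2.map φ s(x, y) ∈ G.edgeSet := hadj x y hxy
    show (if he : Sym2.map φ s(x, y) ∈ G.edgeSet then (page ⟨Sym2.map φ s(x, y), he⟩ : ℕ) else 0)
      = _
    rw [dif_pos he]
    rfl
  refine ⟨r', fun e => ⟨q (Sym2.map φ e.1), ?_⟩, ?_⟩
  · obtain ⟨e, he⟩ := e
    induction e using Sym2.ind with
    | _ x y =>
      show q (Sym2.map φ s(x, y)) < P
      rw [hq x y he]
      exact Fin.isLt _
  · intro a b c d hab hcd h1 h2 h3 heq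
    have h4 : q (Sym2.map φ s(a, b)) = q (Sym2.map φ s(c, d)) := congrArg Fin.val heq
    rw [hq a b hab, hq c d hcd] at h4
    exact hp (φ a) (φ b) (φ c) (φ d) (hadj _ _ hab) (hadj _ _ hcd) h1 h2 h3 (Fin.ext h4)

theorem dv {p : ℕ} (hp : 0 < p) (a z : ℕ) (hz : z < p) : (a * p + z) / p = a := by
  rw [mul_comm, Nat.mul_add_div hp, Nat.div_eq_of_lt hz, add_zero]

theorem digits2 {p u v u' v' : ℕ} (hv : v < p) (hv' : v' < p)
    (h : u * p + v ≤ u' * p + v') : u ≤ u' ∧ (u = u' → v ≤ v') := by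
  have hp : 0 < p := by omega
  have h2 : u ≤ u' := by
    have := Nat.div_le_div_right (c := p) h
    rwa [dv hp _ _ hv, dv hp _ _ hv'] at this
  refine ⟨h2, ?_⟩
  intro h3
  subst h3
  omega

theorem digits {p u v z u' v' z' : ℕ} (hv : v < p) (hv' : v' < p) (hz : z < p) (hz' : z' < p)
    (h : (u * p + v) * p + z ≤ (u' * p + v') * p + z') : u ≤ u' ∧ (u = u' → v ≤ v') := by
  have hp : 0 < p := by omega
  have h1 : u * p + v ≤ u' * p + v' := by
    have := Nat.div_le_div_right (c := p) h
    rwa [dv hp _ _ hz, dv hp _ _ hz'] at this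
  exact digits2 hv hv' h1

theorem digits_inj {p u v z u' v' z' : ℕ} (hv : v < p) (hv' : v' < p) (hz : z < p) (hz' : z' < p)
    (h : (u * p + v) * p + z = (u' * p + v') * p + z') : u = u' ∧ v = v' ∧ z = z' := by
  have h1 := digits hv hv' hz hz' h.le
  have h2 := digits hv' hv hz' hz h.ge
  have h3 : u = u' := le_antisymm h1.1 h2.1
  have h4 : v = v' := le_antisymm (h1.2 h3) (h2.2 h3.symm)
  subst h3 h4
  exact ⟨rfl, rfl, by omega⟩

end Pool.Agent.H26.RK
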