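import Pool.Agent.H26.RK.UpA

/-!
# The algebraic orders: labels
-/

set_option autoImplicit false

namespace Pool.Agent.H26.RK

open Finset

section

variable (p : ℕ) [Fact p.Prime]

abbrev Row := ZMod p × ZMod p × ZMod p

variable {p}

def fu (a : ZMod p) (R : Row p) : ZMod p := R.1 + a * R.2.1 + a ^ 2 * R.2.2
def fv (a : ZMod p) (R : Row p) : ZMod p := R.2.1 + 2 * a * R.2.2
def rk (a : ZMod p) (R : Row p) : ℕ := ((fu a R).val * p + (fv a R).val) * p + (R.2.2).val
def fF (R : Row p) (x : ZMod p) : ZMod p := R.1 * x + R.2.1 * x ^ 2 + R.2.2 * x ^ 3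
/-- `c = (x, y)` -/
def fU (R : Row p) (c : ZMod p × ZMod p) : ZMod p := c.2 - fF R c.1
def qk (R : Row p) (c : ZMod p × ZMod p) : ℕ := (fU R c).val * p + c.1.val
def idx (R R' : Row p) (x : ZMod p) : ℕ :=
  ((Finset.univ : Finset (ZMod p)).filter (fun x' => x'.val < x.val ∧
    fF R' x' - fF R x' = fF R' x - fF R x)).card

theorem vlt (x : ZMod p) : x.val < p := ZMod.val_lt x

theorem rk_lt (a : ZMod p) (R : Row p) : rk a R < p ^ 3 := by
  unfold rk
  have h1 := vlt (fu a R)
  have h2 := vlt (fv a R)
  have h3 := vlt R.2.2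
  have e1 : (fu a R).val * p + (fv a R).val < p * p := by
    calc (fu a R).val * p + (fv a R).val < (fu a R).val * p + p := by omega
      _ = ((fu a R).val + 1) * p := by ring
      _ ≤ p * p := Nat.mul_le_mul_right _ h1
  calc ((fu a R).val * p + (fv a R).val) * p + (R.2.2).val <
        ((fu a R).val * p + (fv a R).val) * p + p := by omega
    _ = ((fu a R).val * p + (fv a R).val + 1) * p := by ring
    _ ≤ (p * p) * p := Nat.mul_le_mul_right _ e1
    _ = p ^ 3 := by ring

theorem qk_lt (R : Row p) (c : ZMod p × ZMod p) : qk R c < p ^ 2 := by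
  unfold qk
  have h1 := vlt (fU R c)
  have h2 := vlt c.1
  calc (fU R c).val * p + c.1.val < (fU R c).val * p + p := by omega
    _ = ((fU R c).val + 1) * p := by ring
    _ ≤ p * p := Nat.mul_le_mul_right _ h1
    _ = p ^ 2 := by ring

theorem rk_inj (a : ZMod p) : Function.Injective (rk a) := by
  intro R R' h
  obtain ⟨h1, h2, h3⟩ := digits_inj (vlt _) (vlt _) (vlt _) (vlt _) h
  have e1 := ZMod.val_injective p h1
  have e2 := ZMod.val_injective p h2
  have e3 := ZMod.val_injective p h3
  obtain ⟨x, y, z⟩ := R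
  obtain ⟨x', y', z'⟩ := R'
  simp only [fu, fv] at e1 e2 e3
  subst e3
  have e4 : y = y' := by linear_combination e2
  subst e4
  have e5 : x = x' := by linear_combination e1
  subst e5
  rfl

theorem qk_inj (R : Row p) : Function.Injective (qk R) := by
  intro c c' h
  have h1 := digits2 (vlt _) (vlt _) h.le
  have h2 := digits2 (vlt _) (vlt _) h.ge
  have h3 := le_antisymm h1.1 h2.1
  have h4 := le_antisymm (h1.2 h3) (h2.2 h3.symm)
  have e1 := ZMod.val_injective p h3
  have e2 := ZMod.val_injective p h4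
  obtain ⟨x, y⟩ := c
  obtain ⟨x', y'⟩ := c'
  simp only [fU] at e1 e2
  subst e2
  have e3 : y = y' := by linear_combination e1
  subst e3
  rfl

/-- the labels for two blocks separate the rows which have the same order in both -/
theorem label_row (hp2 : (2 : ZMod p) ≠ 0) {a b : ZMod p} (hab : a ≠ b) {R R' : Row p}
    (h1 : rk a R ≤ rk a R') (h2 : rk b R ≤ rk b R')
    (h3 : (fu a R).val + (fu b R).val = (fu a R').val + (fu b R').val)
    (h4 : p ≤ (fv a R).val + (fv b R).val ↔ p ≤ (fv a R').val + (fv b R').val) : R = R' := by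
  obtain ⟨u1, v1⟩ := digits (vlt _) (vlt _) (vlt _) (vlt _) h1
  obtain ⟨u2, v2⟩ := digits (vlt _) (vlt _) (vlt _) (vlt _) h2
  have hu1 : (fu a R).val = (fu a R').val := by omega
  have hu2 : (fu b R).val = (fu b R').val := by omega
  have v1 := v1 hu1
  have v2 := v2 hu2
  have e1 := ZMod.val_injective p hu1
  have e2 := ZMod.val_injective p hu2
  have hab' : a - b ≠ 0 := sub_ne_zero.mpr hab
  have key : fv a R + fv b R = fv a R' + fv b R' := by
    have h5 : (a - b) * (fv a R + fv b R) = (a - b) * (fv a R' + fv b R') := by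
      have i1 : (a - b) * (fv a R + fv b R) = 2 * (fu a R - fu b R) := by
        unfold fu fv; ring
      have i2 : (a - b) * (fv a R' + fv b R') = 2 * (fu a R' - fu b R') := by
        unfold fu fv; ring
      rw [i1, i2, e1, e2]
    exact mul_left_cancel₀ hab' h5
  have key2 : (((fv a R).val + (fv b R).val : ℕ) : ZMod p) =
      (((fv a R').val + (fv b R').val : ℕ) : ZMod p) := by
    push_cast
    rw [ZMod.natCast_zmod_val, ZMod.natCast_zmod_val, ZMod.natCast_zmod_val,
      ZMod.natCast_zmod_val]
    exact key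
  have key3 : ((fv a R).val + (fv b R).val) % p = ((fv a R').val + (fv b R').val) % p :=
    (ZMod.natCast_eq_natCast_iff' _ _ _).mp key2
  have b1 := vlt (fv a R)
  have b2 := vlt (fv b R)
  have b3 := vlt (fv a R')
  have b4 := vlt (fv b R')
  have hsum : (fv a R).val + (fv b R).val = (fv a R').val + (fv b R').val := by
    by_cases hc : p ≤ (fv a R).val + (fv b R).val
    · have hc' := h4.mp hc
      rw [Nat.mod_eq_sub_mod hc, Nat.mod_eq_sub_mod hc', Nat.mod_eq_of_lt (by omega),
        Nat.mod_eq_of_lt (by omega)] at key3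
      omega
    · have hc' : ¬ p ≤ (fv a R').val + (fv b R').val := fun h => hc (h4.mpr h)
      rwa [Nat.mod_eq_of_lt (by omega), Nat.mod_eq_of_lt (by omega)] at key3
  have hv1 : (fv a R).val = (fv a R').val := by omega
  have hv2 : (fv b R).val = (fv b R').val := by omega
  have e3 := ZMod.val_injective p hv1
  have e4 := ZMod.val_injective p hv2
  obtain ⟨x, y, z⟩ := R
  obtain ⟨x', y', z'⟩ := R'
  simp only [fu, fv] at e1 e2 e3 e4
  have e5 : z = z' := by
    have : (2 * (a - b)) * z = (2 * (a - b)) * z' := by linear_combination e3 - e4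
    exact mul_left_cancel₀ (mul_ne_zero hp2 hab') this
  subst e5
  have e6 : y = y' := by linear_combination e3
  subst e6
  have e7 : x = x' := by linear_combination e1
  subst e7
  rfl

/-- the labels for two rows separate the columns which have the same order in both -/
theorem label_col {R R' : Row p} {c d : ZMod p × ZMod p} (h1 : qk R c ≤ qk R d)
    (h2 : qk R' c ≤ qk R' d)
    (h3 : (fU R c).val + (fU R' c).val = (fU R d).val + (fU R' d).val)
    (h4 : idx R R' c.1 = idx R R' d.1) : c = d := by
  obtain ⟨u1, x1⟩ := digits2 (vlt _) (vlt _) h1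
  obtain ⟨u2, _⟩ := digits2 (vlt _) (vlt _) h2
  have hu1 : (fU R c).val = (fU R d).val := by omega
  have hu2 : (fU R' c).val = (fU R' d).val := by omega
  have x1 := x1 hu1
  have e1 := ZMod.val_injective p hu1
  have e2 := ZMod.val_injective p hu2
  obtain ⟨x, y⟩ := c
  obtain ⟨x', y'⟩ := d
  simp only [fU] at e1 e2 x1 h4
  have key : fF R' x - fF R x = fF R' x' - fF R x' := by linear_combination e1 - e2
  have hx : x = x' := by
    by_contra hne
    have hlt : x.val < x'.val := by
      rcases Nat.lt_or_ge x.val x'.val with h | h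
      · exact h
      · exact absurd (ZMod.val_injective p (le_antisymm x1 h)) hne
    have : idx R R' x < idx R R' x' := by
      unfold idx
      apply Finset.card_lt_card
      refine ⟨?_, fun hsub => ?_⟩
      · intro w hw
        obtain ⟨_, w1, w2⟩ := Finset.mem_filter.mp hw
        exact Finset.mem_filter.mpr ⟨Finset.mem_univ _, w1.trans hlt, w2.trans key⟩
      · have h5 : x ∈ (Finset.univ : Finset (ZMod p)).filter (fun w => w.val < x'.val ∧
            fF R' w - fF R w = fF R' x' - fF R x') :=
          Finset.mem_filter.mpr ⟨Finset.mem_univ _, hlt, key⟩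
        have h6 := (Finset.mem_filter.mp (hsub h5)).2.1
        exact absurd h6 (lt_irrefl _)
    omega
  subst hx
  have e3 : y = y' := by linear_combination e1
  subst e3
  rfl

open Polynomial in
theorem cub (A B D k : ZMod p) (h : C A * X ^ 3 + C B * X ^ 2 + C D * X + C k =
    (0 : (ZMod p)[X])) : A = 0 ∧ B = 0 ∧ D = 0 := by
  have c1 := congrArg (fun q => q.coeff 1) h
  have c2 := congrArg (fun q => q.coeff 2) h
  have c3 := congrArg (fun q => q.coeff 3) h
  simp [coeff_X, coeff_C] at c1 c2 c3
  exact ⟨c3, c2, c1⟩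

open Polynomial in
theorem idx_lt {R R' : Row p} (hR : R ≠ R') (x : ZMod p) : idx R R' x < 4 := by
  classical
  obtain ⟨k, hk⟩ : ∃ k, k = fF R' x - fF R x := ⟨_, rfl⟩
  let P : (ZMod p)[X] := C (R'.2.2 - R.2.2) * X ^ 3 + C (R'.2.1 - R.2.1) * X ^ 2 +
    C (R'.1 - R.1) * X + C (-k)
  have hP : P ≠ 0 := by
    intro h0
    obtain ⟨c3, c2, c1⟩ := cub _ _ _ _ h0
    apply hR
    exact Prod.ext (sub_eq_zero.mp c1).symm
      (Prod.ext (sub_eq_zero.mp c2).symm (sub_eq_zero.mp c3).symm)
  have hdeg : P.natDegree ≤ 3 := natDegree_cubic_le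
  have hsub : (Finset.univ : Finset (ZMod p)).filter (fun x' => x'.val < x.val ∧
      fF R' x' - fF R x' = fF R' x - fF R x) ⊆ P.roots.toFinset := by
    intro w hw
    obtain ⟨_, _, w2⟩ := Finset.mem_filter.mp hw
    rw [Multiset.mem_toFinset, mem_roots hP, IsRoot.def]
    simp only [P, eval_add, eval_mul, eval_pow, eval_C, eval_X]
    rw [← hk] at w2
    unfold fF at w2
    linear_combination w2
  unfold idx
  have := (Finset.card_le_card hsub).trans ((Multiset.toFinset_card_le _).trans (card_roots' P))
  omega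

end

end Pool.Agent.H26.RK
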