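import Pool.Agent.H26.RK.UpB

/-!
# The book embedding of the rook's graph of size `p ^ 3` on `25 p ^ 4` pages
-/

set_option autoImplicit false

namespace Pool.Agent.H26.RK

open Finset Pool.Agent.Results.MP_fb44d2_co.Superlinear

section

variable {p : ℕ} [Fact p.Prime]

abbrev Vt (p : ℕ) := Row p × (ZMod p × (ZMod p × ZMod p))

abbrev Pg (p : ℕ) := Fin (p ^ 2) ⊕ (Fin (2 * p) × Fin (p ^ 2) × Fin (2 * p) × Bool) ⊕
  (Fin (2 * p ^ 3) × Fin (2 * p) × Fin 4)

def ps (x : Vt p) : ℕ := (x.2.1.val * p ^ 3 + rk x.2.1 x.1) * p ^ 2 + qk x.1 x.2.2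

theorem ps_le {x y : Vt p} (h : ps x ≤ ps y) : x.2.1.val ≤ y.2.1.val ∧
    (x.2.1.val = y.2.1.val → rk x.2.1 x.1 ≤ rk y.2.1 y.1) ∧
    (x.2.1.val = y.2.1.val → rk x.2.1 x.1 = rk y.2.1 y.1 → qk x.1 x.2.2 ≤ qk y.1 y.2.2) := by
  obtain ⟨h1, h2⟩ := digits2 (qk_lt _ _) (qk_lt _ _) h
  obtain ⟨h3, h4⟩ := digits2 (rk_lt _ _) (rk_lt _ _) h1
  exact ⟨h3, h4, fun e1 e2 => h2 (by rw [e1, e2])⟩

theorem ps_inj : Function.Injective (ps (p := p)) := by
  intro x y h
  obtain ⟨h1, h2, h3⟩ := ps_le h.le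
  obtain ⟨k1, k2, k3⟩ := ps_le h.ge
  have e1 := le_antisymm h1 k1
  have e2 := le_antisymm (h2 e1) (k2 e1.symm)
  have e3 := le_antisymm (h3 e1 e2) (k3 e1.symm e2.symm)
  obtain ⟨R, a, c⟩ := x
  obtain ⟨S, b, d⟩ := y
  simp only at e1 e2 e3
  have f1 := ZMod.val_injective p e1
  subst f1
  have f2 := rk_inj a e2
  subst f2
  have f3 := qk_inj R e3
  subst f3
  rfl

theorem add_val_lt (a b : ZMod p) : a.val + b.val < 2 * p := by
  have := vlt a
  have := vlt b
  omega

theorem add_rk_lt (a : ZMod p) (R S : Row p) : rk a R + rk a S < 2 * p ^ 3 := by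
  have := rk_lt a R
  have := rk_lt a S
  omega

open Classical in
noncomputable def pg (x y : Vt p) : Pg p :=
  if h : x.1 = y.1 then
    if x.2.1 = y.2.1 then Sum.inl ⟨qk x.1 x.2.2, qk_lt _ _⟩
    else Sum.inr (Sum.inl (⟨x.2.1.val + y.2.1.val, add_val_lt _ _⟩, ⟨qk x.1 x.2.2, qk_lt _ _⟩,
      ⟨(fu x.2.1 x.1).val + (fu y.2.1 x.1).val, add_val_lt _ _⟩,
      decide (p ≤ (fv x.2.1 x.1).val + (fv y.2.1 x.1).val)))
  else Sum.inr (Sum.inr (⟨rk x.2.1 x.1 + rk x.2.1 y.1, add_rk_lt _ _ _⟩,
    ⟨(fU x.1 x.2.2).val + (fU y.1 x.2.2).val, add_val_lt _ _⟩, ⟨idx x.1 y.1 x.2.2.1, idx_lt h _⟩))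

/-- the rook's graph on `Row × Col` -/
abbrev G (p : ℕ) : SimpleGraph (Vt p) :=
  SimpleGraph.boxProd (⊤ : SimpleGraph (Row p)) (⊤ : SimpleGraph (ZMod p × (ZMod p × ZMod p)))

theorem G_adj {x y : Vt p} (h : (G p).Adj x y) :
    (x.1 = y.1 ∧ x.2 ≠ y.2) ∨ (x.1 ≠ y.1 ∧ x.2 = y.2) := by
  rw [SimpleGraph.boxProd_adj, SimpleGraph.top_adj, SimpleGraph.top_adj] at h
  rcases h with ⟨h1, h2⟩ | ⟨h1, h2⟩
  · exact Or.inr ⟨h1, h2⟩
  · exact Or.inl ⟨h2, h1⟩

theorem nocross (hp2 : (2 : ZMod p) ≠ 0) (a b c d : Vt p) (hab : (G p).Adj a b)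
    (hcd : (G p).Adj c d) (h1 : ps a < ps c) (h2 : ps c < ps b) (h3 : ps b < ps d) :
    pg a b ≠ pg c d := by
  intro heq
  have hac : a ≠ c := fun h => by rw [h] at h1; exact lt_irrefl _ h1
  obtain ⟨a1, a2, a3⟩ := ps_le h1.le
  obtain ⟨b1, b2, b3⟩ := ps_le h2.le
  obtain ⟨c1, c2, c3⟩ := ps_le h3.le
  have ga := G_adj hab
  have gc := G_adj hcd
  obtain ⟨R, α, x⟩ := a
  obtain ⟨R', β, y⟩ := b
  obtain ⟨S, γ, z⟩ := c
  obtain ⟨S', δ, w⟩ := d
  simp only at a1 a2 a3 b1 b2 b3 c1 c2 c3 ga gc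
  unfold pg at heq
  by_cases hR : R = R'
  · subst hR
    by_cases hS : S = S'
    · subst hS
      by_cases hα : α = β
      · subst hα
        by_cases hγ : γ = δ
        · subst hγ
          simp only [dif_pos, if_pos, Sum.inl.injEq, Fin.mk.injEq] at heq
          have e1 : α.val = γ.val := le_antisymm a1 b1
          have e2 := ZMod.val_injective p e1
          subst e2
          have e3 := le_antisymm (a2 rfl) (b2 rfl)
          have e4 := rk_inj α e3
          subst e4
          have e5 := qk_inj R heq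
          subst e5
          exact hac rfl
        · simp only [dif_pos, if_pos, if_neg hγ] at heq
          exact absurd heq (by simp)
      · by_cases hγ : γ = δ
        · subst hγ
          simp only [dif_pos, if_pos, if_neg hα] at heq
          exact absurd heq (by simp)
        · simp only [dif_pos, if_neg hα, if_neg hγ, Sum.inr.injEq, Sum.inl.injEq, Prod.mk.injEq,
            Fin.mk.injEq, decide_eq_decide] at heq
          obtain ⟨q1, q2, q3, q4⟩ := heq
          have e1 : α.val = γ.val := by omega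
          have e2 : β.val = δ.val := by omega
          have f1 := ZMod.val_injective p e1
          have f2 := ZMod.val_injective p e2
          subst f1 f2
          have e3 := label_row hp2 hα (a2 rfl) (c2 rfl) q3 q4
          subst e3
          have e4 := qk_inj R q2
          subst e4
          exact hac rfl
    · by_cases hα : α = β
      · subst hα
        simp only [dif_pos, if_pos, dif_neg hS] at heq
        exact absurd heq (by simp)
      · simp only [dif_pos, if_neg hα, dif_neg hS] at heq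
        exact absurd heq (by simp)
  · by_cases hS : S = S'
    · subst hS
      by_cases hγ : γ = δ
      · subst hγ
        simp only [dif_pos, if_pos, dif_neg hR] at heq
        exact absurd heq (by simp)
      · simp only [dif_pos, if_neg hγ, dif_neg hR] at heq
        exact absurd heq (by simp)
    · have ga' : (α, x) = (β, y) := by
        rcases ga with h | h
        · exact absurd h.1 hR
        · exact h.2
      have gc' : (γ, z) = (δ, w) := by
        rcases gc with h | h
        · exact absurd h.1 hS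
        · exact h.2
      obtain ⟨g1, g2⟩ := Prod.mk.inj ga'
      obtain ⟨g3, g4⟩ := Prod.mk.inj gc'
      subst g1 g2 g3 g4
      simp only [dif_neg hR, dif_neg hS, Sum.inr.injEq, Prod.mk.injEq, Fin.mk.injEq] at heq
      obtain ⟨q1, q2, q3⟩ := heq
      have e1 : α.val = γ.val := le_antisymm a1 b1
      have e2 := ZMod.val_injective p e1
      subst e2
      have k1 := a2 rfl
      have k2 := b2 rfl
      have k3 := c2 rfl
      have k4 : rk α R = rk α S := by omega
      have k5 : rk α R' = rk α S' := by omega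
      have m1 := rk_inj α k4
      have m2 := rk_inj α k5
      subst m1 m2
      have e3 := label_col (a3 rfl rfl) (c3 rfl rfl) q2 q3
      subst e3
      exact hac rfl

theorem emb (hp2 : (2 : ZMod p) ≠ 0) : HasBookEmbedding (G p) (25 * p ^ 4) := by
  classical
  refine of_pairs (G p) (LinearOrder.lift' ps ps_inj) (pg (p := p)) ?_ ?_
  · intro a b c d hab hcd h1 h2 h3
    exact nocross hp2 a b c d hab hcd h1 h2 h3
  · simp only [Fintype.card_sum, Fintype.card_prod, Fintype.card_fin, Fintype.card_bool]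
    have : p ^ 2 ≤ p ^ 4 := Nat.pow_le_pow_right (Fact.out : p.Prime).pos (by norm_num)
    have e1 : 2 * p * (p ^ 2 * (2 * p * 2)) = 8 * p ^ 4 := by ring
    have e2 : 2 * p ^ 3 * (2 * p * 4) = 16 * p ^ 4 := by ring
    rw [e1, e2]
    omega

end

end Pool.Agent.H26.RK
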