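import Pool.Agent.H26.RK.UpC

/-!
# The book thickness of the rook's graph is at most `32400 n ^ (4 / 3)`
-/

set_option autoImplicit false

namespace Pool.Agent.H26.RK

open Finset Pool.Agent.Results.MP_fb44d2_co.Superlinear

theorem up (p n : ℕ) [Fact p.Prime] (hp2 : (2 : ZMod p) ≠ 0) (hn : n ≤ p ^ 3) :
    bookThickness (rook n) ≤ 25 * p ^ 4 := by
  classical
  have hcard : Fintype.card (Fin n) ≤ Fintype.card (ZMod p × ZMod p × ZMod p) := by
    rw [Fintype.card_fin, Fintype.card_prod, Fintype.card_prod, ZMod.card]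
    calc n ≤ p ^ 3 := hn
      _ = _ := by ring
  obtain ⟨e⟩ := Function.Embedding.nonempty_of_card_le hcard
  refine Nat.sInf_le ?_
  refine restrict (G := G p) (fun x : Fin n × Fin n => ((e x.1, e x.2) : Vt p)) ?_ ?_ (emb hp2)
  · intro x y hxy
    have h1 := congrArg Prod.fst hxy
    have h2 := congrArg Prod.snd hxy
    exact Prod.ext (e.injective h1) (e.injective h2)
  · intro x y hxy
    rw [rook_adj] at hxy
    obtain ⟨hne, h⟩ := hxy
    rw [SimpleGraph.boxProd_adj, SimpleGraph.top_adj, SimpleGraph.top_adj]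
    rcases h with h | h
    · right
      refine ⟨fun h' => hne (Prod.ext h (e.injective h')), ?_⟩
      show e x.1 = e y.1
      rw [h]
    · left
      refine ⟨fun h' => hne (Prod.ext (e.injective h') h), ?_⟩
      show e x.2 = e y.2
      rw [h]

theorem two_ne {p : ℕ} (hp : 2 < p) : (2 : ZMod p) ≠ 0 := by
  intro h
  have h1 : ((2 : ℕ) : ZMod p) = 0 := by exact_mod_cast h
  rw [ZMod.natCast_eq_zero_iff] at h1
  have := Nat.le_of_dvd (by norm_num) h1
  omega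

theorem upper : ∀ n : ℕ, 1 ≤ n →
    (bookThickness (rook n) : ℝ) ≤ 32400 * (n : ℝ) ^ ((1 : ℝ) + 1 / 3) := by
  intro n hn
  obtain ⟨t, ht⟩ : ∃ t : ℝ, t = (n : ℝ) ^ ((1 : ℝ) / 3) := ⟨_, rfl⟩
  have hn1 : (1 : ℝ) ≤ n := by exact_mod_cast hn
  have hn0 : (0 : ℝ) < n := by linarith
  have ht1 : 1 ≤ t := by
    rw [ht]
    exact Real.one_le_rpow hn1 (by norm_num)
  have ht3 : t ^ 3 = n := by
    rw [ht, ← Real.rpow_natCast, ← Real.rpow_mul hn0.le]
    norm_num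
  have ht4 : (n : ℝ) ^ ((1 : ℝ) + 1 / 3) = t ^ 4 := by
    rw [Real.rpow_add hn0, Real.rpow_one, ← ht]
    calc (n : ℝ) * t = t ^ 3 * t := by rw [ht3]
      _ = _ := by ring
  obtain ⟨m, hm⟩ : ∃ m, m = ⌈t⌉₊ := ⟨_, rfl⟩
  have hm1 : t ≤ m := by rw [hm]; exact Nat.le_ceil t
  have hm2 : (m : ℝ) < t + 1 := by rw [hm]; exact Nat.ceil_lt_add_one (by linarith)
  have hm3 : 1 ≤ m := by
    have : (1 : ℝ) ≤ m := ht1.trans hm1
    exact_mod_cast this
  obtain ⟨p, hp, hp1, hp2⟩ := Nat.exists_prime_lt_and_le_two_mul (m + 1) (by omega)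
  haveI : Fact p.Prime := ⟨hp⟩
  have hpr1 : (m : ℝ) + 1 < p := by exact_mod_cast hp1
  have hpr2 : (p : ℝ) ≤ 2 * (m + 1) := by exact_mod_cast hp2
  have hnp : n ≤ p ^ 3 := by
    have : (n : ℝ) ≤ (p : ℝ) ^ 3 := by
      rw [← ht3]
      exact pow_le_pow_left₀ (by linarith) (by linarith) 3
    exact_mod_cast this
  have h1 := up p n (two_ne (by omega)) hnp
  have h2 : (bookThickness (rook n) : ℝ) ≤ 25 * (p : ℝ) ^ 4 := by exact_mod_cast h1
  have h3 : (p : ℝ) ≤ 6 * t := by linarith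
  have h4 : (p : ℝ) ^ 4 ≤ (6 * t) ^ 4 := pow_le_pow_left₀ (by positivity) h3 4
  rw [ht4]
  calc (bookThickness (rook n) : ℝ) ≤ 25 * (p : ℝ) ^ 4 := h2
    _ ≤ 25 * (6 * t) ^ 4 := by linarith
    _ = 32400 * t ^ 4 := by ring

end Pool.Agent.H26.RK
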